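import Pool.Agent.Helper82.TI.Basic

/-!
# Project TI: the dimensions of the spaces of polynomial functions

PROOF. Let S = {f : τ ⊆ fac f}, N = Nn τ = #S.
(1) LOWER BOUND: Hn i τ ≤ finrank (Fs i τ). For f ∈ S with #(R f \ τ) < i the function
g_f = [τ ⊆ fac] mono (R f \ τ).val is in Fs i τ (mono_mem), g_f(f) ≠ 0 (the factors X v f, v ∈ R f ⊆
fac f, are nonzero), and g_f(f') ≠ 0 implies τ ⊆ fac f' and R f \ τ ⊆ fac f', so R f ⊆ fac f', so
rk f ≤ rk f' (R_le). Triangular with respect to the injective rk, so linearly independent (take a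
dependency and evaluate it at the f of SMALLEST rk with nonzero coefficient).
(2) Same with C f = fac f \ R f: #{f ∈ S : #(C f \ τ) < j} ≤ finrank (Fs j τ) (by C_le; evaluate at
the f of LARGEST rk). For f ∈ S: #(R f \ τ) + #(C f \ τ) = d - #τ. So if i + j + #τ = d + 1 then
#(C f \ τ) < j iff #(R f \ τ) > d - #τ - j = i - 1, i.e. iff not #(R f \ τ) < i. Hence
N - Hn i τ ≤ finrank (Fs j τ).
(3) UPPER BOUND: if i + j + #τ = d + 1 then finrank (Fs i τ) + finrank (Fs j τ) ≤ N: the functions
supported on S have dimension N, the form ∑ w f Xp τ f g f g' f on them is nondegenerate (w f Xp τ f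
≠ 0 for f ∈ S) and Fs i τ, Fs j τ are orthogonal (Fs_pair). Possible implementation: the linear map
Fs j τ → Dual (Fs i τ)... or: multiplication by w Xp is injective on Fs j τ with image contained in
the annihilator of Fs i τ inside the functions on the subtype S, of dimension N - finrank (Fs i τ).
(4) (1) + (2) + (3): Hn i + (N - Hn i) ≤ finrank Fs i + finrank Fs j ≤ N, so equality everywhere:
finrank (Fs i τ) = Hn i τ, finrank (Fs j τ) = N - Hn i τ. Given i with i + #τ ≤ d + 1 use
j = d + 1 - #τ - i. Hn_symm: finrank (Fs j τ) = Hn j τ as well (the hypothesis is symmetric).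
-/

open Finset

namespace Pool.Agent.Helper82.TI

variable {K V ι n A : Type} [Field K] [LinearOrder K] [IsStrictOrderedRing K] [DecidableEq V]
  [Fintype V] [Fintype ι] [Fintype n] [Fintype A] [DecidableEq A]

omit [LinearOrder K] [IsStrictOrderedRing K] in
private lemma tri_card_le (M : Submodule K (ι → K)) (T : Finset ι) (g : ι → (ι → K))
    (hg : ∀ f ∈ T, g f ∈ M) (hne : ∀ f ∈ T, g f f ≠ 0) (r : ι → ℤ) (hr : Function.Injective r)
    (tri : ∀ f ∈ T, ∀ f', g f f' ≠ 0 → r f ≤ r f') : T.card ≤ Module.finrank K M := by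
  classical
  have hli : LinearIndependent K (fun f : T => (⟨g f.1, hg f.1 f.2⟩ : M)) := by
    rw [Fintype.linearIndependent_iff]
    intro c hc
    by_contra hcon
    push Not at hcon
    obtain ⟨f1, hf1⟩ := hcon
    have hU : (univ.filter (fun f : T => c f ≠ 0)).Nonempty := ⟨f1, by simp [hf1]⟩
    obtain ⟨f0, hf0, hmin⟩ := Finset.exists_min_image _ (fun f : T => r f.1) hU
    have hf0c : c f0 ≠ 0 := (Finset.mem_filter.1 hf0).2
    have h1 : (∑ f : T, c f • (⟨g f.1, hg f.1 f.2⟩ : M) : M).1 f0.1 = 0 := by
      rw [hc]; rfl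
    have h2 : (∑ f : T, c f • (⟨g f.1, hg f.1 f.2⟩ : M) : M).1 f0.1 =
        ∑ f : T, c f * g f.1 f0.1 := by
      rw [AddSubmonoidClass.coe_finsetSum, Finset.sum_apply]
      rfl
    rw [h2] at h1
    have h3 : ∑ f : T, c f * g f.1 f0.1 = c f0 * g f0.1 f0.1 := by
      apply Finset.sum_eq_single f0
      · intro f _ hff
        by_cases hcf : c f = 0
        · rw [hcf, zero_mul]
        · have h4 : g f.1 f0.1 = 0 := by
            by_contra h5
            have h6 := tri f.1 f.2 f0.1 h5
            have h7 := hmin f (by simp [hcf])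
            have h8 : r f.1 = r f0.1 := le_antisymm h6 h7
            exact hff (Subtype.ext (hr h8))
          rw [h4, mul_zero]
      · intro h
        exact absurd (Finset.mem_univ _) h
    rw [h3] at h1
    rcases mul_eq_zero.1 h1 with h | h
    · exact hf0c h
    · exact hne f0.1 f0.2 h
  have := hli.fintype_card_le_finrank
  rwa [Fintype.card_coe] at this

private lemma mono_ne {D : Dat K V ι n} (hD : D.Ok) (s : Finset V) (f : ι) :
    D.mono s.val f ≠ 0 ↔ s ⊆ D.fac f := by
  unfold Dat.mono
  constructor
  · intro h v hv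
    rw [← hD.X_ne]
    intro h0
    apply h
    apply Multiset.prod_eq_zero
    rw [Multiset.mem_map]
    exact ⟨v, hv, h0⟩
  · intro h h0
    rw [Multiset.prod_eq_zero_iff, Multiset.mem_map] at h0
    obtain ⟨v, hv, h1⟩ := h0
    exact (hD.X_ne v f).2 (h hv) h1

private lemma low1 {D : Dat K V ι n} (hD : D.Ok) (i : ℕ) (τ : Finset V) :
    D.Hn i τ ≤ Module.finrank K (D.Fs i τ) := by
  classical
  unfold Dat.Hn
  apply tri_card_le (D.Fs i τ) _
    (fun f f' => if τ ⊆ D.fac f' then D.mono (D.R f \ τ).val f' else 0) _ _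
    (fun f => (D.rk f : ℤ)) (fun a b h => hD.rk_inj (by
      have h' : (D.rk a : ℤ) = D.rk b := h
      exact_mod_cast h'))
  · intro f hf f' hne
    have h1 : τ ⊆ D.fac f' := by
      by_contra h
      exact hne (if_neg h)
    rw [if_pos h1] at hne
    have h2 := (mono_ne hD _ _).1 hne
    have h3 : D.R f ⊆ D.fac f' := by
      intro v hv
      by_cases hvt : v ∈ τ
      · exact h1 hvt
      · exact h2 (Finset.mem_sdiff.2 ⟨hv, hvt⟩)
    exact_mod_cast hD.R_le f f' h3
  · intro f hf
    exact mono_mem D τ (Finset.mem_filter.1 hf).2.2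
  · intro f hf
    have h1 := (Finset.mem_filter.1 hf).2.1
    simp only [if_pos h1]
    rw [mono_ne hD]
    exact Finset.sdiff_subset.trans (hD.R_sub f)

private lemma low2 {D : Dat K V ι n} (hD : D.Ok) {i j : ℕ} {τ : Finset V}
    (h : i + j + τ.card = D.d + 1) :
    D.Nn τ ≤ D.Hn i τ + Module.finrank K (D.Fs j τ) := by
  classical
  have hcard : ∀ f, τ ⊆ D.fac f →
      (D.R f \ τ).card + ((D.fac f \ D.R f) \ τ).card + τ.card = D.d := by
    intro f hf
    rw [← hD.card f]
    have h1 : D.fac f = ((D.R f \ τ) ∪ ((D.fac f \ D.R f) \ τ)) ∪ τ := by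
      ext v
      have := @hD.R_sub f v
      have := @hf v
      simp only [Finset.mem_union, Finset.mem_sdiff]
      tauto
    conv_rhs => rw [h1]
    rw [Finset.card_union_of_disjoint, Finset.card_union_of_disjoint]
    · rw [Finset.disjoint_left]
      intro v hv hv'
      simp only [Finset.mem_sdiff] at hv hv'
      tauto
    · rw [Finset.disjoint_left]
      intro v hv hv'
      simp only [Finset.mem_union, Finset.mem_sdiff] at hv
      tauto
  have hlow : (univ.filter (fun f => τ ⊆ D.fac f ∧ ¬ (D.R f \ τ).card < i)).card ≤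
      Module.finrank K (D.Fs j τ) := by
    apply tri_card_le (D.Fs j τ) _
      (fun f f' => if τ ⊆ D.fac f' then D.mono ((D.fac f \ D.R f) \ τ).val f' else 0) _ _
      (fun f => -(D.rk f : ℤ)) (fun a b h => hD.rk_inj (by
        have h' : -(D.rk a : ℤ) = -(D.rk b : ℤ) := h
        have : (D.rk a : ℤ) = D.rk b := by linarith
        exact_mod_cast this))
    · intro f hf f' hne
      have h1 : τ ⊆ D.fac f' := by
        by_contra h
        exact hne (if_neg h)
      rw [if_pos h1] at hne
      have h2 := (mono_ne hD _ _).1 hne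
      have h3 : D.fac f \ D.R f ⊆ D.fac f' := by
        intro v hv
        by_cases hvt : v ∈ τ
        · exact h1 hvt
        · exact h2 (Finset.mem_sdiff.2 ⟨hv, hvt⟩)
      have h4 : (D.rk f' : ℤ) ≤ D.rk f := by exact_mod_cast hD.C_le f f' h3
      linarith
    · intro f hf
      apply mono_mem D τ
      have h1 := (Finset.mem_filter.1 hf).2
      have h2 := hcard f h1.1
      have h3 := h1.2
      simp only [Finset.card_val]
      omega
    · intro f hf
      have h1 := (Finset.mem_filter.1 hf).2.1
      simp only [if_pos h1]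
      rw [mono_ne hD]
      exact Finset.sdiff_subset.trans Finset.sdiff_subset
  have hN : D.Nn τ = D.Hn i τ +
      (univ.filter (fun f => τ ⊆ D.fac f ∧ ¬ (D.R f \ τ).card < i)).card := by
    unfold Dat.Nn Dat.Hn
    rw [← Finset.card_union_of_disjoint]
    · congr 1
      ext f
      simp only [Finset.mem_union, Finset.mem_filter, Finset.mem_univ, true_and]
      tauto
    · rw [Finset.disjoint_left]
      intro f hf hf'
      simp only [Finset.mem_filter, Finset.mem_univ, true_and] at hf hf'
      exact hf'.2 hf.2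
  omega

private lemma upp {D : Dat K V ι n} (hD : D.Ok) {i j : ℕ} {τ : Finset V}
    (h : i + j + τ.card = D.d + 1) :
    Module.finrank K (D.Fs i τ) + Module.finrank K (D.Fs j τ) ≤ D.Nn τ := by
  classical
  let S := {f : ι // τ ⊆ D.fac f}
  let res : (ι → K) →ₗ[K] (S → K) := LinearMap.funLeft K K (fun f : S => f.1)
  let P : Submodule K (S → K) := (D.Fs i τ).map res
  have hP : Module.finrank K (D.Fs i τ) ≤ Module.finrank K P := by
    let φ : D.Fs i τ →ₗ[K] P := (res.comp (D.Fs i τ).subtype).codRestrict P
      (fun x => Submodule.mem_map_of_mem x.2)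
    apply LinearMap.finrank_le_finrank_of_injective (f := φ)
    rw [injective_iff_map_eq_zero]
    intro g hg
    have h1 : ∀ f : S, g.1 f.1 = 0 := by
      intro f
      have := congrArg (fun p : P => p.1 f) hg
      exact this
    apply Subtype.ext
    funext f
    by_cases hf : τ ⊆ D.fac f
    · exact h1 ⟨f, hf⟩
    · exact Fs_supp D g.2 hf
  let dt : (ι → K) →ₗ[K] Module.Dual K (S → K) :=
    { toFun := fun g' =>
        { toFun := fun p => ∑ f : S, D.w f.1 * D.Xp τ f.1 * (p f * g' f.1)
          map_add' := by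
            intro p p'
            rw [← Finset.sum_add_distrib]
            refine Finset.sum_congr rfl (fun f _ => ?_)
            simp only [Pi.add_apply]
            ring
          map_smul' := by
            intro c p
            simp only [RingHom.id_apply, smul_eq_mul]
            rw [Finset.mul_sum]
            refine Finset.sum_congr rfl (fun f _ => ?_)
            simp only [Pi.smul_apply, smul_eq_mul]
            ring }
      map_add' := by
        intro g g'
        apply LinearMap.ext
        intro p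
        show ∑ f : S, D.w f.1 * D.Xp τ f.1 * (p f * (g + g') f.1) =
          (∑ f : S, D.w f.1 * D.Xp τ f.1 * (p f * g f.1)) +
          ∑ f : S, D.w f.1 * D.Xp τ f.1 * (p f * g' f.1)
        rw [← Finset.sum_add_distrib]
        refine Finset.sum_congr rfl (fun f _ => ?_)
        simp only [Pi.add_apply]
        ring
      map_smul' := by
        intro c g
        apply LinearMap.ext
        intro p
        show ∑ f : S, D.w f.1 * D.Xp τ f.1 * (p f * (c • g) f.1) =
          c * ∑ f : S, D.w f.1 * D.Xp τ f.1 * (p f * g f.1)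
        rw [Finset.mul_sum]
        refine Finset.sum_congr rfl (fun f _ => ?_)
        simp only [Pi.smul_apply, smul_eq_mul]
        ring }
  have hdt : ∀ (g' : ι → K) (p : S → K), dt g' p =
      ∑ f : S, D.w f.1 * D.Xp τ f.1 * (p f * g' f.1) := fun _ _ => rfl
  have hQ : Module.finrank K (D.Fs j τ) ≤ Module.finrank K P.dualAnnihilator := by
    have hmem : ∀ x : D.Fs j τ, (dt.comp (D.Fs j τ).subtype) x ∈ P.dualAnnihilator := by
      intro x
      rw [Submodule.mem_dualAnnihilator]
      intro p hp
      obtain ⟨g, hg, rfl⟩ := Submodule.mem_map.1 hp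
      show dt x.1 (res g) = 0
      rw [hdt]
      have h1 := Fs_pair hD (le_of_eq h) hg x.2
      rw [← h1]
      have h2 : ∑ f : S, D.w f.1 * D.Xp τ f.1 * (res g f * x.1 f.1) =
          ∑ f : S, (fun f => D.w f * D.Xp τ f * (g f * x.1 f)) f.1 :=
        Finset.sum_congr rfl (fun f _ => rfl)
      rw [h2, ← Finset.sum_subtype (univ.filter (fun f => τ ⊆ D.fac f)) (fun f => by simp)
        (fun f => D.w f * D.Xp τ f * (g f * x.1 f))]
      apply Finset.sum_subset (Finset.filter_subset _ _)
      intro f _ hf
      have h3 : ¬ τ ⊆ D.fac f := fun h4 => hf (Finset.mem_filter.2 ⟨Finset.mem_univ _, h4⟩)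
      show D.w f * D.Xp τ f * (g f * x.1 f) = 0
      rw [Fs_supp D x.2 h3, mul_zero, mul_zero]
    let φ : D.Fs j τ →ₗ[K] P.dualAnnihilator :=
      (dt.comp (D.Fs j τ).subtype).codRestrict P.dualAnnihilator hmem
    apply LinearMap.finrank_le_finrank_of_injective (f := φ)
    rw [injective_iff_map_eq_zero]
    intro g hg
    have h0 : dt g.1 = 0 := congrArg Subtype.val hg
    have h1 : ∀ f : S, g.1 f.1 = 0 := by
      intro f
      have h2 : dt g.1 (Pi.single f 1) = 0 := by rw [h0]; rfl
      rw [hdt, Finset.sum_eq_single f] at h2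
      · rw [Pi.single_eq_same, one_mul] at h2
        rcases mul_eq_zero.1 h2 with h3 | h3
        · exfalso
          rcases mul_eq_zero.1 h3 with h4 | h4
          · exact hD.w_ne _ h4
          · unfold Dat.Xp at h4
            rw [Finset.prod_eq_zero_iff] at h4
            obtain ⟨v, hv, h5⟩ := h4
            exact (hD.X_ne v f.1).2 (f.2 hv) h5
        · exact h3
      · intro f' _ hff
        rw [Pi.single_eq_of_ne hff, zero_mul, mul_zero]
      · intro h
        exact absurd (Finset.mem_univ _) h
    apply Subtype.ext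
    funext f
    by_cases hf : τ ⊆ D.fac f
    · exact h1 ⟨f, hf⟩
    · exact Fs_supp D g.2 hf
  have hsum := Subspace.finrank_add_finrank_dualAnnihilator_eq P
  have hS : Module.finrank K (S → K) = D.Nn τ := by
    rw [Module.finrank_pi, Fintype.card_subtype]
    rfl
  omega

theorem finrank_Fs {D : Dat K V ι n} (hD : D.Ok) {i : ℕ} {τ : Finset V}
    (h : i + τ.card ≤ D.d + 1) : Module.finrank K (D.Fs i τ) = D.Hn i τ := by
  obtain ⟨j, hj⟩ : ∃ j, i + j + τ.card = D.d + 1 := ⟨D.d + 1 - τ.card - i, by omega⟩
  have h1 := low1 hD i τ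
  have h2 := low2 hD hj
  have h3 := upp hD hj
  omega

theorem Hn_symm {D : Dat K V ι n} (hD : D.Ok) {i j : ℕ} {τ : Finset V}
    (h : i + j + τ.card = D.d + 1) : D.Hn i τ + D.Hn j τ = D.Nn τ := by
  have h1 := low1 hD i τ
  have h2 := low2 hD h
  have h3 := upp hD h
  have h4 : Module.finrank K (D.Fs j τ) = D.Hn j τ := finrank_Fs hD (by omega)
  omega

end Pool.Agent.Helper82.TI
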