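import Pool.Agent.Helper82.TI.Defs

/-!
# Project TI: the operators

PROOFS. Finite sums. W_rs: if τ is not contained in fac f then Xp τ f = 0 (hD.X_ne), so the
restriction changes nothing. Dop_Dop: at each facet f write m = xf f; the sum
∑_j m_j ∑_b γ_j a b ∑_i m_i ∑_c γ_i b c z c f; the terms i = j give m_j² z a f (Cl.sq), the terms
(i, j) and (j, i), i ≠ j, cancel (Cl.anti); total (∑ m_j²) z a f = c2 z a f (hD.sq). Convenient:
first prove ∑_b γ_j a b γ_i b c + ∑_b γ_i a b γ_j b c = 2 δ_ij δ_ac. W_Dop: γ_j is symmetric.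
rs_Dop: D acts facet by facet. W_Gop_Dop: at each facet ⟨G_u z, G_m z⟩ = ⟨z, G_u G_m z⟩ =
⟨z, G_m G_u z⟩ and G_u G_m + G_m G_u = 2 ⟨u, m⟩ (here 2 ≠ 0).
-/

open Finset

namespace Pool.Agent.Helper82.TI

variable {K V ι n A : Type} [Field K] [LinearOrder K] [IsStrictOrderedRing K] [DecidableEq V]
  [Fintype V] [Fintype ι] [Fintype n] [Fintype A] [DecidableEq A]

/-- The matrix of Clifford multiplication by `u`. -/
private def MM (γ : n → Matrix A A K) (u : n → K) : Matrix A A K := ∑ j, u j • γ j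

omit [LinearOrder K] [IsStrictOrderedRing K] [DecidableEq A] in
private theorem MM_mulVec (γ : n → Matrix A A K) (u : n → K) (y : A → K) (a : A) :
    (MM γ u).mulVec y a = ∑ j, u j * ∑ b, γ j a b * y b := by
  unfold MM
  rw [Matrix.sum_mulVec, Finset.sum_apply]
  refine Finset.sum_congr rfl (fun j _ => ?_)
  rw [Matrix.smul_mulVec, Pi.smul_apply, smul_eq_mul]
  rfl

omit [LinearOrder K] [IsStrictOrderedRing K] in
private theorem MM_symm {γ : n → Matrix A A K} (hγ : Cl γ) (u : n → K) :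
    (MM γ u).transpose = MM γ u := by
  unfold MM
  rw [Matrix.transpose_sum]
  refine Finset.sum_congr rfl (fun j _ => ?_)
  rw [Matrix.transpose_smul]
  congr 1
  ext a b
  rw [Matrix.transpose_apply]
  exact hγ.symm j b a

omit [LinearOrder K] [IsStrictOrderedRing K] in
private theorem gg_same {γ : n → Matrix A A K} (hγ : Cl γ) (j : n) : γ j * γ j = 1 := by
  ext a b
  rw [Matrix.mul_apply, hγ.sq j a b, Matrix.one_apply]

omit [LinearOrder K] [IsStrictOrderedRing K] in
private theorem gg_anti {γ : n → Matrix A A K} (hγ : Cl γ) {i j : n} (h : i ≠ j) :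
    γ i * γ j + γ j * γ i = 0 := by
  ext a b
  rw [Matrix.add_apply, Matrix.mul_apply, Matrix.mul_apply, hγ.anti i j h a b]
  simp

omit [LinearOrder K] [IsStrictOrderedRing K] in
private theorem MM_anti {γ : n → Matrix A A K} (hγ : Cl γ) (u m : n → K) :
    MM γ u * MM γ m + MM γ m * MM γ u = (2 * ∑ j, u j * m j) • (1 : Matrix A A K) := by
  classical
  have h1 : ∀ u m : n → K, MM γ u * MM γ m = ∑ j, ∑ i, (u j * m i) • (γ j * γ i) := by
    intro u m
    unfold MM
    rw [Finset.sum_mul]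
    refine Finset.sum_congr rfl (fun j _ => ?_)
    rw [Finset.mul_sum]
    refine Finset.sum_congr rfl (fun i _ => ?_)
    rw [smul_mul_smul_comm]
  have h2 : MM γ m * MM γ u = ∑ j, ∑ i, (u j * m i) • (γ i * γ j) := by
    rw [h1 m u, Finset.sum_comm]
    refine Finset.sum_congr rfl (fun j _ => Finset.sum_congr rfl (fun i _ => ?_))
    rw [mul_comm (m i) (u j)]
  rw [h1 u m, h2, ← Finset.sum_add_distrib, Finset.mul_sum, Finset.sum_smul]
  refine Finset.sum_congr rfl (fun j _ => ?_)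
  rw [← Finset.sum_add_distrib, Finset.sum_eq_single j]
  · rw [gg_same hγ, ← add_smul]
    congr 1
    ring
  · intro i _ hij
    rw [← smul_add, gg_anti hγ (Ne.symm hij), smul_zero]
  · intro h
    exact absurd (Finset.mem_univ j) h

omit [LinearOrder K] [IsStrictOrderedRing K] [DecidableEq V] [Fintype V] [Fintype ι]
  [DecidableEq A] in
private theorem Gop_eq (γ : n → Matrix A A K) (u : n → K) (z : A → ι → K) (a : A) (f : ι) :
    Gop ι γ u z a f = (MM γ u).mulVec (fun b => z b f) a := by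
  rw [MM_mulVec]
  rfl

omit [LinearOrder K] [IsStrictOrderedRing K] [DecidableEq V] [Fintype ι]
  [DecidableEq A] in
private theorem Dop_eq (D : Dat K V ι n) (γ : n → Matrix A A K) (z : A → ι → K) (a : A) (f : ι) :
    D.Dop γ z a f = (MM γ (D.xf f)).mulVec (fun b => z b f) a := by
  rw [MM_mulVec]
  rfl

omit [LinearOrder K] [IsStrictOrderedRing K] in
private theorem dot_MM {γ : n → Matrix A A K} (hγ : Cl γ) (u : n → K) (y y' : A → K) :
    ∑ a, (MM γ u).mulVec y a * y' a = ∑ a, y a * (MM γ u).mulVec y' a := by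
  have h : dotProduct ((MM γ u).mulVec y) y' = dotProduct y ((MM γ u).mulVec y') := by
    rw [Matrix.dotProduct_mulVec, ← Matrix.mulVec_transpose, MM_symm hγ]
  exact h

theorem W_symm (D : Dat K V ι n) (τ : Finset V) (z z' : A → ι → K) :
    D.W τ z z' = D.W τ z' z := by
  unfold Dat.W
  refine Finset.sum_congr rfl (fun f _ => ?_)
  congr 1
  exact Finset.sum_congr rfl (fun a _ => mul_comm _ _)

theorem W_add (D : Dat K V ι n) (τ : Finset V) (z z' z'' : A → ι → K) :
    D.W τ (z + z') z'' = D.W τ z z'' + D.W τ z' z'' := by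
  unfold Dat.W
  rw [← Finset.sum_add_distrib]
  refine Finset.sum_congr rfl (fun f _ => ?_)
  rw [← mul_add, ← Finset.sum_add_distrib]
  congr 1
  refine Finset.sum_congr rfl (fun a _ => ?_)
  rw [Pi.add_apply, Pi.add_apply, add_mul]

theorem W_smul (D : Dat K V ι n) (τ : Finset V) (c : K) (z z' : A → ι → K) :
    D.W τ (c • z) z' = c * D.W τ z z' := by
  unfold Dat.W
  rw [Finset.mul_sum]
  refine Finset.sum_congr rfl (fun f _ => ?_)
  have h : ∑ a, (c • z) a f * z' a f = c * ∑ a, z a f * z' a f := by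
    rw [Finset.mul_sum]
    refine Finset.sum_congr rfl (fun a _ => ?_)
    rw [Pi.smul_apply, Pi.smul_apply, smul_eq_mul, mul_assoc]
  rw [h]
  ring

theorem W_rs {D : Dat K V ι n} (hD : D.Ok) (τ : Finset V) (z z' : A → ι → K) :
    D.W τ (D.rs τ z) z' = D.W τ z z' := by
  unfold Dat.W
  refine Finset.sum_congr rfl (fun f _ => ?_)
  by_cases h : τ ⊆ D.fac f
  · congr 1
    refine Finset.sum_congr rfl (fun a _ => ?_)
    have e : D.rs τ z a f = if τ ⊆ D.fac f then z a f else 0 := rfl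
    rw [e, if_pos h]
  · have h0 : D.Xp τ f = 0 := by
      rw [Finset.not_subset] at h
      obtain ⟨v, hv, hvf⟩ := h
      unfold Dat.Xp
      refine Finset.prod_eq_zero hv ?_
      by_contra hne
      exact hvf ((hD.X_ne v f).mp hne)
    rw [h0, mul_zero, zero_mul, zero_mul]

theorem Dop_Dop {D : Dat K V ι n} (hD : D.Ok) {γ : n → Matrix A A K} (hγ : Cl γ)
    (z : A → ι → K) : D.Dop γ (D.Dop γ z) = D.c2 • z := by
  funext a f
  have h1 : (fun b => D.Dop γ z b f) = (MM γ (D.xf f)).mulVec (fun b => z b f) := by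
    funext b
    exact Dop_eq D γ z b f
  rw [Dop_eq, h1, Matrix.mulVec_mulVec]
  have h2 := MM_anti hγ (D.xf f) (D.xf f)
  rw [hD.sq f] at h2
  have h3 : MM γ (D.xf f) * MM γ (D.xf f) = D.c2 • (1 : Matrix A A K) := by
    have h4 : (2 : K) • (MM γ (D.xf f) * MM γ (D.xf f)) = (2 : K) • (D.c2 • (1 : Matrix A A K)) := by
      rw [two_smul, h2, smul_smul]
    exact smul_right_injective _ (two_ne_zero) h4
  rw [h3, Matrix.smul_mulVec, Matrix.one_mulVec]
  rfl

theorem W_Dop (D : Dat K V ι n) {γ : n → Matrix A A K} (hγ : Cl γ) (τ : Finset V)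
    (z z' : A → ι → K) : D.W τ (D.Dop γ z) z' = D.W τ z (D.Dop γ z') := by
  unfold Dat.W
  refine Finset.sum_congr rfl (fun f _ => ?_)
  congr 1
  have h := dot_MM hγ (D.xf f) (fun b => z b f) (fun b => z' b f)
  calc ∑ a, D.Dop γ z a f * z' a f = ∑ a, (MM γ (D.xf f)).mulVec (fun b => z b f) a * z' a f :=
        Finset.sum_congr rfl (fun a _ => by rw [Dop_eq])
    _ = ∑ a, z a f * (MM γ (D.xf f)).mulVec (fun b => z' b f) a := h
    _ = ∑ a, z a f * D.Dop γ z' a f := Finset.sum_congr rfl (fun a _ => by rw [Dop_eq])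

theorem rs_Dop (D : Dat K V ι n) (γ : n → Matrix A A K) (τ : Finset V) (z : A → ι → K) :
    D.rs τ (D.Dop γ z) = D.Dop γ (D.rs τ z) := by
  funext a f
  have e1 : D.rs τ (D.Dop γ z) a f = if τ ⊆ D.fac f then D.Dop γ z a f else 0 := rfl
  have e2 : ∀ b, D.rs τ z b f = if τ ⊆ D.fac f then z b f else 0 := fun _ => rfl
  have e3 : D.Dop γ (D.rs τ z) a f = ∑ j, D.xf f j * ∑ b, γ j a b * D.rs τ z b f := rfl
  have e4 : D.Dop γ z a f = ∑ j, D.xf f j * ∑ b, γ j a b * z b f := rfl
  rw [e1, e3]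
  by_cases h : τ ⊆ D.fac f
  · rw [if_pos h, e4]
    refine Finset.sum_congr rfl (fun j _ => ?_)
    congr 1
    refine Finset.sum_congr rfl (fun b _ => ?_)
    rw [e2, if_pos h]
  · rw [if_neg h]
    symm
    refine Finset.sum_eq_zero (fun j _ => ?_)
    have h0 : ∑ b, γ j a b * D.rs τ z b f = 0 :=
      Finset.sum_eq_zero (fun b _ => by rw [e2, if_neg h, mul_zero])
    rw [h0, mul_zero]

theorem rs_rs (D : Dat K V ι n) {τ ρ : Finset V} (h : τ ⊆ ρ) (z : A → ι → K) :
    D.rs ρ (D.rs τ z) = D.rs ρ z := by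
  funext a f
  have e1 : D.rs ρ (D.rs τ z) a f = if ρ ⊆ D.fac f then
    (if τ ⊆ D.fac f then z a f else 0) else 0 := rfl
  have e2 : D.rs ρ z a f = if ρ ⊆ D.fac f then z a f else 0 := rfl
  rw [e1, e2]
  by_cases hρ : ρ ⊆ D.fac f
  · rw [if_pos hρ, if_pos hρ, if_pos (h.trans hρ)]
  · rw [if_neg hρ, if_neg hρ]

theorem W_Gop_Dop (D : Dat K V ι n) {γ : n → Matrix A A K} (hγ : Cl γ) (τ : Finset V)
    (u : n → K) (z : A → ι → K) :
    D.W τ (Gop ι γ u z) (D.Dop γ z) =
      ∑ f, D.w f * D.Xp τ f * ((∑ j, u j * D.xf f j) * ∑ a, z a f * z a f) := by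
  unfold Dat.W
  refine Finset.sum_congr rfl (fun f _ => ?_)
  congr 1
  set y : A → K := fun b => z b f with hy
  set M := MM γ u with hM
  set N := MM γ (D.xf f) with hN
  have e0 : ∑ a, Gop ι γ u z a f * D.Dop γ z a f = ∑ a, M.mulVec y a * N.mulVec y a := by
    refine Finset.sum_congr rfl (fun a _ => ?_)
    rw [Gop_eq, Dop_eq]
  have e1 : ∑ a, M.mulVec y a * N.mulVec y a = ∑ a, y a * (M * N).mulVec y a := by
    rw [← Matrix.mulVec_mulVec]
    exact dot_MM hγ u y (N.mulVec y)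
  have e2 : ∑ a, M.mulVec y a * N.mulVec y a = ∑ a, y a * (N * M).mulVec y a := by
    have e5 := dot_MM hγ (D.xf f) y (M.mulVec y)
    rw [← Matrix.mulVec_mulVec]
    refine Eq.trans ?_ e5
    exact Finset.sum_congr rfl (fun a _ => mul_comm _ _)
  have e3 : (∑ a, M.mulVec y a * N.mulVec y a) + (∑ a, M.mulVec y a * N.mulVec y a) =
      2 * ((∑ j, u j * D.xf f j) * ∑ a, y a * y a) := by
    calc (∑ a, M.mulVec y a * N.mulVec y a) + (∑ a, M.mulVec y a * N.mulVec y a)
        = (∑ a, y a * (M * N).mulVec y a) + ∑ a, y a * (N * M).mulVec y a := by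
          rw [← e1, ← e2]
      _ = ∑ a, y a * (M * N + N * M).mulVec y a := by
          rw [← Finset.sum_add_distrib]
          refine Finset.sum_congr rfl (fun a _ => ?_)
          rw [Matrix.add_mulVec, Pi.add_apply, mul_add]
      _ = 2 * ((∑ j, u j * D.xf f j) * ∑ a, y a * y a) := by
          have hr : ∀ c : K, ∑ a, y a * (c • y) a = c * ∑ a, y a * y a := by
            intro c
            rw [Finset.mul_sum]
            refine Finset.sum_congr rfl (fun a _ => ?_)
            rw [Pi.smul_apply, smul_eq_mul]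
            ring
          rw [hM, hN, MM_anti hγ u (D.xf f), Matrix.smul_mulVec, Matrix.one_mulVec, hr,
            mul_assoc]
  rw [e0]
  have e4 : (2 : K) * (∑ a, M.mulVec y a * N.mulVec y a) =
      2 * ((∑ j, u j * D.xf f j) * ∑ a, y a * y a) := by
    rw [two_mul]
    exact e3
  exact mul_left_cancel₀ two_ne_zero e4

end Pool.Agent.Helper82.TI
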