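import Pool.Agent.Helper82.TI.Basic
import Pool.Agent.Helper82.TI.Ops
import Pool.Agent.Helper82.TI.Dims

/-!
# Project TI: the dimension of the space of the p + D q

Bs i = FS i τ + D FS i τ.
PROOF. finrank (FS A i τ) = card A * finrank (Fs i τ) (a power of Fs i τ: the linear equivalence of
Submodule.pi univ with A → Fs i τ). Consider T : FS (j+1) × FS (j+1) → functions, (p, q) ↦ p + D q;
its range is Bs (j+1); its kernel is {(-D q, q) : q ∈ FS (j+1), D q ∈ FS (j+1)}, isomorphic (by q) to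
K_j = {q ∈ FS (j+1) : D q ∈ FS (j+1)}. K_j = Bs j: by hV (VV τ j) K_j ⊆ Bs j, and conversely for
p, q ∈ FS j: p + D q ∈ FS (j+1) (FS_mono, FS_Dop) and D (p + D q) = D p + c2 q ∈ FS (j+1) (Dop_Dop).
Rank-nullity gives the formula.
-/

open Finset

namespace Pool.Agent.Helper82.TI

variable {K V ι n A : Type} [Field K] [LinearOrder K] [IsStrictOrderedRing K] [DecidableEq V]
  [Fintype V] [Fintype ι] [Fintype n] [Fintype A] [DecidableEq A]

/-- The space of the `p + D q`. -/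
def Dat.Bs (D : Dat K V ι n) (γ : n → Matrix A A K) (τ : Finset V) (i : ℕ) :
    Submodule K (A → ι → K) := D.FS A i τ ⊔ (D.FS A i τ).map (D.Dop γ)

private theorem finrank_FS {D : Dat K V ι n} (hD : D.Ok) {i : ℕ} {τ : Finset V}
    (h : i + τ.card ≤ D.d + 1) :
    Module.finrank K (D.FS A i τ) = Fintype.card A * D.Hn i τ := by
  classical
  let e : D.FS A i τ ≃ₗ[K] (A → D.Fs i τ) :=
    { toFun := fun z a => ⟨z.1 a, (Submodule.mem_pi.1 z.2) a (Set.mem_univ a)⟩
      map_add' := fun z z' => rfl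
      map_smul' := fun r z => rfl
      invFun := fun y => ⟨fun a => (y a).1, Submodule.mem_pi.2 (fun a _ => (y a).2)⟩
      left_inv := fun z => rfl
      right_inv := fun y => rfl }
  rw [e.finrank_eq, Module.finrank_pi_fintype, Finset.sum_const, Finset.card_univ, smul_eq_mul,
    finrank_Fs hD h]

private theorem mem_Bs {D : Dat K V ι n} {γ : n → Matrix A A K} {τ : Finset V} {i : ℕ}
    {z : A → ι → K} : z ∈ D.Bs γ τ i ↔
      ∃ p ∈ D.FS A i τ, ∃ q ∈ D.FS A i τ, z = p + D.Dop γ q := by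
  unfold Dat.Bs
  rw [Submodule.mem_sup]
  constructor
  · rintro ⟨p, hp, y, hy, rfl⟩
    obtain ⟨q, hq, rfl⟩ := Submodule.mem_map.1 hy
    exact ⟨p, hp, q, hq, rfl⟩
  · rintro ⟨p, hp, q, hq, rfl⟩
    exact ⟨p, hp, _, Submodule.mem_map_of_mem hq, rfl⟩

private theorem mem_Bs_iff {D : Dat K V ι n} (hD : D.Ok) {γ : n → Matrix A A K} (hγ : Cl γ) {j : ℕ}
    {τ : Finset V} (hV : D.VV γ τ j) {z : A → ι → K} :
    z ∈ D.Bs γ τ j ↔ z ∈ D.FS A (j + 1) τ ∧ D.Dop γ z ∈ D.FS A (j + 1) τ := by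
  rw [mem_Bs]
  constructor
  · rintro ⟨p, hp, q, hq, rfl⟩
    refine ⟨Submodule.add_mem _ (FS_mono D (Nat.le_succ j) τ hp) (FS_Dop D γ hq), ?_⟩
    rw [map_add, Dop_Dop hD hγ]
    exact Submodule.add_mem _ (FS_Dop D γ hp)
      (Submodule.smul_mem _ _ (FS_mono D (Nat.le_succ j) τ hq))
  · rintro ⟨h1, h2⟩
    exact hV z h1 h2

theorem finrank_Bs {D : Dat K V ι n} (hD : D.Ok) {γ : n → Matrix A A K} (hγ : Cl γ) {j : ℕ}
    {τ : Finset V} (h : j + τ.card ≤ D.d) (hV : D.VV γ τ j) :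
    Module.finrank K (D.Bs γ τ (j + 1)) + Module.finrank K (D.Bs γ τ j) =
      2 * (Fintype.card A * D.Hn (j + 1) τ) := by
  classical
  have hM : Module.finrank K (D.FS A (j + 1) τ) = Fintype.card A * D.Hn (j + 1) τ :=
    finrank_FS hD (by omega)
  let M : Submodule K (A → ι → K) := D.FS A (j + 1) τ
  let T : (M × M) →ₗ[K] (A → ι → K) :=
    LinearMap.coprod M.subtype ((D.Dop γ).comp M.subtype)
  have hT : ∀ x : M × M, T x = x.1.1 + D.Dop γ x.2.1 := fun _ => rfl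
  have hr : LinearMap.range T = D.Bs γ τ (j + 1) := by
    ext z
    rw [mem_Bs, LinearMap.mem_range]
    constructor
    · rintro ⟨x, rfl⟩
      exact ⟨x.1.1, x.1.2, x.2.1, x.2.2, hT x⟩
    · rintro ⟨p, hp, q, hq, rfl⟩
      exact ⟨(⟨p, hp⟩, ⟨q, hq⟩), hT _⟩
  let φ : LinearMap.ker T →ₗ[K] (A → ι → K) :=
    (M.subtype.comp (LinearMap.snd K M M)).comp (LinearMap.ker T).subtype
  have hφ : ∀ x : LinearMap.ker T, φ x = x.1.2.1 := fun _ => rfl
  have hinj : Function.Injective φ := by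
    rw [injective_iff_map_eq_zero]
    intro x hx
    rw [hφ] at hx
    have h1 : T x.1 = 0 := LinearMap.mem_ker.1 x.2
    rw [hT, hx, map_zero, add_zero] at h1
    apply Subtype.ext
    exact Prod.ext (Subtype.ext h1) (Subtype.ext hx)
  have hrφ : LinearMap.range φ = D.Bs γ τ j := by
    ext z
    rw [mem_Bs_iff hD hγ hV, LinearMap.mem_range]
    constructor
    · rintro ⟨x, rfl⟩
      rw [hφ]
      refine ⟨x.1.2.2, ?_⟩
      have h1 : T x.1 = 0 := LinearMap.mem_ker.1 x.2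
      rw [hT] at h1
      rw [eq_neg_of_add_eq_zero_right h1]
      exact Submodule.neg_mem _ x.1.1.2
    · rintro ⟨h1, h2⟩
      have h3 : T (⟨-D.Dop γ z, Submodule.neg_mem _ h2⟩, ⟨z, h1⟩) = 0 := by
        rw [hT]
        exact neg_add_cancel _
      exact ⟨⟨_, LinearMap.mem_ker.2 h3⟩, rfl⟩
  have h1 := LinearMap.finrank_range_add_finrank_ker T
  have h2 := LinearMap.finrank_range_of_inj hinj
  rw [hrφ] at h2
  rw [hr, ← h2, Module.finrank_prod] at h1
  have h3 : Module.finrank K M = Fintype.card A * D.Hn (j + 1) τ := hM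
  rw [h1, h3]
  ring

theorem Bs_zero (D : Dat K V ι n) (γ : n → Matrix A A K) (τ : Finset V) : D.Bs γ τ 0 = ⊥ := by
  rw [eq_bot_iff]
  intro z hz
  obtain ⟨p, hp, q, hq, rfl⟩ := mem_Bs.1 hz
  rw [FS_zero D hp, FS_zero D hq, map_zero, add_zero]
  exact Submodule.zero_mem _

end Pool.Agent.Helper82.TI
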