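import Pool.Agent.Helper82.TI.Defs

/-!
# Project TI: the spaces of polynomial functions

PROOFS. Everything by Submodule.span_induction on the generators. Fs_zero: no generators (card μ < 0
is impossible). Fs_supp: generators vanish at f. Fs_X: X_v times the generator of μ is the generator
of v ::ₘ μ (D.mono (v ::ₘ μ) f = D.X v f * D.mono μ f, and 0 = X * 0 outside). Fs_rs: for τ ⊆ ρ the
generator of μ restricted to the facets containing ρ is the generator for ρ. Fs_pair: for
generators μ, μ' (both nonempty ranges, so card μ + card μ' + card τ ≤ (i-1) + (j-1) + card τ < d):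
Xp τ f * mono μ f * mono μ' f = mono (τ.val + μ + μ') f, and this vanishes unless τ ⊆ fac f (by
hD.X_ne), so the two cases of the if give the same; then hD.loc. Bilinearity: two span inductions.
FS versions: coordinatewise (Submodule.mem_pi). FS_Dop: (Dop z) a = ∑_v X_v * (∑_j x v j * ∑_b γ_j a b
* z b), each inner function is in Fs i τ.
-/

open Finset

namespace Pool.Agent.Helper82.TI

variable {K V ι n A : Type} [Field K] [LinearOrder K] [IsStrictOrderedRing K] [DecidableEq V]
  [Fintype V] [Fintype ι] [Fintype n] [Fintype A] [DecidableEq A]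

omit [LinearOrder K] [IsStrictOrderedRing K] [DecidableEq V] [Fintype V] [Fintype ι]
  [Fintype n] in
private theorem mono_cons (D : Dat K V ι n) (v : V) (μ : Multiset V) (f : ι) :
    D.mono (v ::ₘ μ) f = D.X v f * D.mono μ f := by
  simp only [Dat.mono, Multiset.map_cons, Multiset.prod_cons]

omit [LinearOrder K] [IsStrictOrderedRing K] [DecidableEq V] [Fintype V] [Fintype ι]
  [Fintype n] in
private theorem mono_add (D : Dat K V ι n) (μ μ' : Multiset V) (f : ι) :
    D.mono (μ + μ') f = D.mono μ f * D.mono μ' f := by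
  simp only [Dat.mono, Multiset.map_add, Multiset.prod_add]

omit [LinearOrder K] [IsStrictOrderedRing K] [DecidableEq V] [Fintype V] [Fintype ι]
  [Fintype n] in
private theorem Xp_eq (D : Dat K V ι n) (τ : Finset V) (f : ι) :
    D.Xp τ f = D.mono τ.val f := rfl

/-- Induction over the generators. -/
private theorem Fs_ind (D : Dat K V ι n) {i : ℕ} {τ : Finset V} (P : (ι → K) → Prop)
    (h0 : P (fun _ => 0)) (hadd : ∀ g g', P g → P g' → P (fun f => g f + g' f))
    (hsmul : ∀ (r : K) g, P g → P (fun f => r * g f))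
    (hgen : ∀ μ : Multiset V, Multiset.card μ < i →
      P (fun f => if τ ⊆ D.fac f then D.mono μ f else 0)) {g : ι → K} (hg : g ∈ D.Fs i τ) :
    P g := by
  refine Submodule.span_induction (p := fun g _ => P g) ?_ h0 (fun g g' _ _ h h' => hadd g g' h h')
    (fun r g _ h => hsmul r g h) hg
  rintro g ⟨μ, hμ, rfl⟩
  exact hgen μ hμ

theorem Fs_mono (D : Dat K V ι n) {i j : ℕ} (h : i ≤ j) (τ : Finset V) :
    D.Fs i τ ≤ D.Fs j τ := by
  refine Submodule.span_mono ?_
  rintro g ⟨μ, hμ, rfl⟩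
  exact ⟨μ, lt_of_lt_of_le hμ h, rfl⟩

theorem Fs_zero (D : Dat K V ι n) (τ : Finset V) : D.Fs 0 τ = ⊥ := by
  rw [Dat.Fs, Submodule.span_eq_bot]
  rintro g ⟨μ, hμ, rfl⟩
  exact absurd hμ (Nat.not_lt_zero _)

theorem Fs_supp (D : Dat K V ι n) {i : ℕ} {τ : Finset V} {g : ι → K} (hg : g ∈ D.Fs i τ) {f : ι}
    (hf : ¬ τ ⊆ D.fac f) : g f = 0 := by
  refine Fs_ind D (fun g => g f = 0) rfl ?_ ?_ ?_ hg
  · intro g g' h h'
    simp only [h, h', add_zero]
  · intro r g h
    simp only [h, mul_zero]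
  · intro μ _
    simp only [if_neg hf]

omit [LinearOrder K] [IsStrictOrderedRing K] [Fintype V] [Fintype ι] [Fintype n] in
theorem mono_mem (D : Dat K V ι n) {i : ℕ} (τ : Finset V) {μ : Multiset V}
    (h : Multiset.card μ < i) :
    (fun f => if τ ⊆ D.fac f then D.mono μ f else 0) ∈ D.Fs i τ :=
  Submodule.subset_span ⟨μ, h, rfl⟩

theorem Fs_X (D : Dat K V ι n) {i : ℕ} {τ : Finset V} {g : ι → K} (hg : g ∈ D.Fs i τ) (v : V) :
    (fun f => D.X v f * g f) ∈ D.Fs (i + 1) τ := by
  refine Fs_ind D (fun g => (fun f => D.X v f * g f) ∈ D.Fs (i + 1) τ) ?_ ?_ ?_ ?_ hg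
  · have : (fun f : ι => D.X v f * 0) = (0 : ι → K) := by
      funext f
      simp only [mul_zero, Pi.zero_apply]
    rw [this]
    exact Submodule.zero_mem _
  · intro g g' h h'
    have : (fun f : ι => D.X v f * (g f + g' f)) =
        (fun f => D.X v f * g f) + (fun f => D.X v f * g' f) := by
      funext f
      simp only [mul_add, Pi.add_apply]
    rw [this]
    exact Submodule.add_mem _ h h'
  · intro r g h
    have : (fun f : ι => D.X v f * (r * g f)) = r • (fun f => D.X v f * g f) := by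
      funext f
      simp only [Pi.smul_apply, smul_eq_mul]
      ring
    rw [this]
    exact Submodule.smul_mem _ r h
  · intro μ hμ
    have : (fun f : ι => D.X v f * (if τ ⊆ D.fac f then D.mono μ f else 0)) =
        (fun f => if τ ⊆ D.fac f then D.mono (v ::ₘ μ) f else 0) := by
      funext f
      by_cases hf : τ ⊆ D.fac f
      · simp only [if_pos hf, mono_cons]
      · simp only [if_neg hf, mul_zero]
    rw [this]
    refine mono_mem D τ ?_
    rw [Multiset.card_cons]
    omega

theorem Fs_rs (D : Dat K V ι n) {i : ℕ} {τ ρ : Finset V} (h : τ ⊆ ρ) {g : ι → K}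
    (hg : g ∈ D.Fs i τ) : (fun f => if ρ ⊆ D.fac f then g f else 0) ∈ D.Fs i ρ := by
  refine Fs_ind D (fun g => (fun f => if ρ ⊆ D.fac f then g f else 0) ∈ D.Fs i ρ) ?_ ?_ ?_ ?_ hg
  · have : (fun f : ι => if ρ ⊆ D.fac f then (0 : K) else 0) = (0 : ι → K) := by
      funext f
      simp only [ite_self, Pi.zero_apply]
    rw [this]
    exact Submodule.zero_mem _
  · intro g g' h h'
    have : (fun f : ι => if ρ ⊆ D.fac f then g f + g' f else 0) =
        (fun f => if ρ ⊆ D.fac f then g f else 0) + (fun f => if ρ ⊆ D.fac f then g' f else 0) := by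
      funext f
      by_cases hf : ρ ⊆ D.fac f
      · simp only [if_pos hf, Pi.add_apply]
      · simp only [if_neg hf, Pi.add_apply, add_zero]
    rw [this]
    exact Submodule.add_mem _ h h'
  · intro r g h
    have : (fun f : ι => if ρ ⊆ D.fac f then r * g f else 0) =
        r • (fun f => if ρ ⊆ D.fac f then g f else 0) := by
      funext f
      by_cases hf : ρ ⊆ D.fac f
      · simp only [if_pos hf, Pi.smul_apply, smul_eq_mul]
      · simp only [if_neg hf, Pi.smul_apply, smul_eq_mul, mul_zero]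
    rw [this]
    exact Submodule.smul_mem _ r h
  · intro μ hμ
    have : (fun f : ι => if ρ ⊆ D.fac f then (if τ ⊆ D.fac f then D.mono μ f else 0) else 0) =
        (fun f => if ρ ⊆ D.fac f then D.mono μ f else 0) := by
      funext f
      by_cases hf : ρ ⊆ D.fac f
      · simp only [if_pos hf, if_pos (h.trans hf)]
      · simp only [if_neg hf]
    rw [this]
    exact mono_mem D ρ hμ

theorem Fs_pair {D : Dat K V ι n} (hD : D.Ok) {i j : ℕ} {τ : Finset V}
    (h : i + j + τ.card ≤ D.d + 1) {g g' : ι → K} (hg : g ∈ D.Fs i τ) (hg' : g' ∈ D.Fs j τ) :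
    ∑ f, D.w f * D.Xp τ f * (g f * g' f) = 0 := by
  refine Fs_ind D (fun g => ∑ f, D.w f * D.Xp τ f * (g f * g' f) = 0) ?_ ?_ ?_ ?_ hg
  · simp only [zero_mul, mul_zero, Finset.sum_const_zero]
  · intro g1 g2 h1 h2
    simp only [add_mul, mul_add, Finset.sum_add_distrib, h1, h2, add_zero]
  · intro r g1 h1
    have : ∀ f, D.w f * D.Xp τ f * (r * g1 f * g' f) =
        r * (D.w f * D.Xp τ f * (g1 f * g' f)) := fun f => by ring
    simp only [this, ← Finset.mul_sum, h1, mul_zero]
  · intro μ hμ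
    refine Fs_ind D (fun g' => ∑ f, D.w f * D.Xp τ f *
      ((if τ ⊆ D.fac f then D.mono μ f else 0) * g' f) = 0) ?_ ?_ ?_ ?_ hg'
    · simp only [mul_zero, Finset.sum_const_zero]
    · intro g1 g2 h1 h2
      simp only [mul_add, Finset.sum_add_distrib, h1, h2, add_zero]
    · intro r g1 h1
      have : ∀ f, D.w f * D.Xp τ f * ((if τ ⊆ D.fac f then D.mono μ f else 0) * (r * g1 f)) =
          r * (D.w f * D.Xp τ f * ((if τ ⊆ D.fac f then D.mono μ f else 0) * g1 f)) :=
        fun f => by ring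
      simp only [this, ← Finset.mul_sum, h1, mul_zero]
    · intro μ' hμ'
      have key : ∀ f, D.w f * D.Xp τ f * ((if τ ⊆ D.fac f then D.mono μ f else 0) *
          (if τ ⊆ D.fac f then D.mono μ' f else 0)) = D.w f * D.mono (τ.val + μ + μ') f := by
        intro f
        rw [mono_add, mono_add, ← Xp_eq]
        by_cases hf : τ ⊆ D.fac f
        · rw [if_pos hf, if_pos hf]
          ring
        · have hz : D.Xp τ f = 0 := by
            obtain ⟨v, hv, hvf⟩ := Finset.not_subset.mp hf
            refine Finset.prod_eq_zero hv ?_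
            by_contra hne
            exact hvf ((hD.X_ne v f).mp hne)
          rw [if_neg hf, if_neg hf, hz]
          ring
      simp only [key]
      refine hD.loc _ ?_
      rw [Multiset.card_add, Multiset.card_add]
      have : Multiset.card τ.val = τ.card := rfl
      omega

theorem FS_mono (D : Dat K V ι n) {i j : ℕ} (h : i ≤ j) (τ : Finset V) :
    D.FS A i τ ≤ D.FS A j τ := by
  intro z hz
  rw [Dat.FS, Submodule.mem_pi] at hz ⊢
  exact fun a ha => Fs_mono D h τ (hz a ha)

theorem FS_zero (D : Dat K V ι n) {τ : Finset V} {z : A → ι → K} (hz : z ∈ D.FS A 0 τ) :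
    z = 0 := by
  rw [Dat.FS, Submodule.mem_pi] at hz
  funext a
  have := hz a (Set.mem_univ a)
  rw [Fs_zero, Submodule.mem_bot] at this
  exact this

theorem FS_supp (D : Dat K V ι n) {i : ℕ} {τ : Finset V} {z : A → ι → K} (hz : z ∈ D.FS A i τ)
    {f : ι} (hf : ¬ τ ⊆ D.fac f) (a : A) : z a f = 0 := by
  rw [Dat.FS, Submodule.mem_pi] at hz
  exact Fs_supp D (hz a (Set.mem_univ a)) hf

theorem FS_rs (D : Dat K V ι n) {i : ℕ} {τ ρ : Finset V} (h : τ ⊆ ρ) {z : A → ι → K}
    (hz : z ∈ D.FS A i τ) : D.rs ρ z ∈ D.FS A i ρ := by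
  rw [Dat.FS, Submodule.mem_pi] at hz ⊢
  intro a ha
  exact Fs_rs D h (hz a ha)

theorem FS_rs_self (D : Dat K V ι n) {i : ℕ} {τ : Finset V} {z : A → ι → K}
    (hz : z ∈ D.FS A i τ) : D.rs τ z = z := by
  funext a f
  change (if τ ⊆ D.fac f then z a f else 0) = z a f
  by_cases hf : τ ⊆ D.fac f
  · rw [if_pos hf]
  · rw [if_neg hf, FS_supp D hz hf]

theorem FS_Dop (D : Dat K V ι n) (γ : n → Matrix A A K) {i : ℕ} {τ : Finset V} {z : A → ι → K}
    (hz : z ∈ D.FS A i τ) : D.Dop γ z ∈ D.FS A (i + 1) τ := by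
  rw [Dat.FS, Submodule.mem_pi] at hz ⊢
  intro a _
  have hin : ∀ v : V, (∑ j : n, D.x v j • ∑ b : A, γ j a b • z b) ∈ D.Fs i τ := by
    intro v
    refine Submodule.sum_mem _ (fun j _ => Submodule.smul_mem _ _ (Submodule.sum_mem _
      (fun b _ => Submodule.smul_mem _ _ (hz b (Set.mem_univ b)))))
  have hX : ∀ v : V, (fun f : ι => D.X v f * (∑ j : n, D.x v j • ∑ b : A, γ j a b • z b) f) ∈
      D.Fs (i + 1) τ := fun v => Fs_X D (hin v) v
  have heq : D.Dop γ z a =
      ∑ v : V, (fun f : ι => D.X v f * (∑ j : n, D.x v j • ∑ b : A, γ j a b • z b) f) := by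
    funext f
    change ∑ j : n, D.xf f j * ∑ b : A, γ j a b * z b f = _
    have h1 : ∀ v : V, (∑ j : n, D.x v j • ∑ b : A, γ j a b • z b) f =
        ∑ j : n, D.x v j * ∑ b : A, γ j a b * z b f := by
      intro v
      simp only [Finset.sum_apply, Pi.smul_apply, smul_eq_mul]
    rw [Finset.sum_apply]
    simp only [h1, Dat.xf]
    calc ∑ j : n, (∑ v : V, D.X v f * D.x v j) * ∑ b : A, γ j a b * z b f
        = ∑ j : n, ∑ v : V, D.X v f * (D.x v j * ∑ b : A, γ j a b * z b f) := by
          refine Finset.sum_congr rfl (fun j _ => ?_)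
          rw [Finset.sum_mul]
          exact Finset.sum_congr rfl (fun v _ => mul_assoc _ _ _)
      _ = ∑ v : V, ∑ j : n, D.X v f * (D.x v j * ∑ b : A, γ j a b * z b f) := Finset.sum_comm
      _ = ∑ v : V, D.X v f * ∑ j : n, D.x v j * ∑ b : A, γ j a b * z b f :=
          Finset.sum_congr rfl (fun v _ => (Finset.mul_sum _ _ _).symm)
  rw [heq]
  exact Submodule.sum_mem _ (fun v _ => hX v)

theorem FS_Gop (D : Dat K V ι n) (γ : n → Matrix A A K) (u : n → K) {i : ℕ} {τ : Finset V}
    {z : A → ι → K} (hz : z ∈ D.FS A i τ) : Gop ι γ u z ∈ D.FS A i τ := by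
  rw [Dat.FS, Submodule.mem_pi] at hz ⊢
  intro a _
  have hin : (∑ j, u j • ∑ b, γ j a b • z b) ∈ D.Fs i τ :=
    Submodule.sum_mem _ (fun j _ => Submodule.smul_mem _ _ (Submodule.sum_mem _
      (fun b _ => Submodule.smul_mem _ _ (hz b (Set.mem_univ b)))))
  have heq : Gop ι γ u z a = ∑ j, u j • ∑ b, γ j a b • z b := by
    funext f
    change ∑ j, u j * ∑ b, γ j a b * z b f = _
    simp only [Finset.sum_apply, Pi.smul_apply, smul_eq_mul]
  rw [heq]
  exact hin

theorem W_zero {D : Dat K V ι n} (hD : D.Ok) {i j : ℕ} {τ : Finset V}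
    (h : i + j + τ.card ≤ D.d + 1) {z z' : A → ι → K} (hz : z ∈ D.FS A i τ)
    (hz' : z' ∈ D.FS A j τ) : D.W τ z z' = 0 := by
  rw [Dat.FS, Submodule.mem_pi] at hz hz'
  rw [Dat.W]
  simp only [Finset.mul_sum]
  rw [Finset.sum_comm]
  exact Finset.sum_eq_zero (fun a ha =>
    Fs_pair hD h (hz a (Set.mem_univ a)) (hz' a (Set.mem_univ a)))

end Pool.Agent.Helper82.TI
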