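import Pool.Agent.Helper82.TI.Basic
import Pool.Agent.Helper82.TI.Ops

/-!
# Project TI: functions on tuples of vertices

PROOFS. dl_dl: (dl (dl φ)) s = ∑_j ∑_k (-1)^(j+k) rs (im s) (rs (im (s ∘ j.succAbove)) (φ (...))) =
∑_j ∑_k (-1)^(j+k) rs (im s) (φ (s ∘ j.succAbove ∘ k.succAbove)) by rs_rs (im of the subtuple is
contained in im s), and the pairs (j, k) cancel as usual: Fin.succAbove identities (compare
the proof that the alternating face map complex squares to zero, AlgebraicTopology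
alternatingFaceMapComplex, d_squared; or Finset.sum_involution). dl_mem: FS_rs along
im (subtuple) ⊆ im s. dl_Dop: rs_Dop and linearity.
-/

open Finset

namespace Pool.Agent.Helper82.TI

variable {K V ι n A : Type} [Field K] [LinearOrder K] [IsStrictOrderedRing K] [DecidableEq V]
  [Fintype V] [Fintype ι] [Fintype n] [Fintype A] [DecidableEq A]

/-- The vertices outside `τ`. -/
abbrev Y (τ : Finset V) : Type := {v : V // v ∉ τ}

/-- The union of `τ` and the vertices of the tuple `s`. -/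
def im (τ : Finset V) {r : ℕ} (s : Fin r → Y τ) : Finset V :=
  τ ∪ univ.image (fun j => (s j).1)

/-- The coboundary of a function on tuples. -/
def Dat.dl (D : Dat K V ι n) (τ : Finset V) {r : ℕ} (φ : (Fin r → Y τ) → A → ι → K) :
    (Fin (r + 1) → Y τ) → A → ι → K :=
  fun s => ∑ j : Fin (r + 1), (-1 : K) ^ (j : ℕ) • D.rs (im τ s) (φ (fun i => s (j.succAbove i)))

omit [Fintype V] in
theorem im_sub (τ : Finset V) {r : ℕ} (s : Fin (r + 1) → Y τ) (j : Fin (r + 1)) :
    im τ (fun i => s (j.succAbove i)) ⊆ im τ s := by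
  unfold im
  refine union_subset_union_right ?_
  intro v hv
  obtain ⟨i, -, hi⟩ := mem_image.mp hv
  exact mem_image.mpr ⟨j.succAbove i, mem_univ _, hi⟩

omit [Fintype V] in
theorem card_im (τ : Finset V) {r : ℕ} (s : Fin r → Y τ) : (im τ s).card ≤ τ.card + r := by
  unfold im
  refine (card_union_le _ _).trans (Nat.add_le_add_left ?_ _)
  refine card_image_le.trans ?_
  rw [card_univ, Fintype.card_fin]

omit [Fintype V] in
theorem ssub_im (τ : Finset V) {r : ℕ} (s : Fin (r + 1) → Y τ) : τ ⊂ im τ s := by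
  refine ⟨subset_union_left, fun h => ?_⟩
  have h1 : (s 0).1 ∈ im τ s :=
    mem_union_right _ (mem_image.mpr ⟨0, mem_univ _, rfl⟩)
  exact (s 0).2 (h h1)

theorem dl_dl (D : Dat K V ι n) (τ : Finset V) {r : ℕ} (φ : (Fin r → Y τ) → A → ι → K) :
    D.dl τ (D.dl τ φ) = 0 := by
  funext s
  have h1 : D.dl τ (D.dl τ φ) s = ∑ q : Fin (r + 2) × Fin (r + 1),
      (-1 : K) ^ ((q.1 : ℕ) + (q.2 : ℕ)) •
        D.rs (im τ s) (φ (fun i => s (q.1.succAbove (q.2.succAbove i)))) := by
    rw [Fintype.sum_prod_type]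
    unfold Dat.dl
    refine sum_congr rfl (fun j _ => ?_)
    rw [map_sum, smul_sum]
    refine sum_congr rfl (fun k _ => ?_)
    rw [map_smul, smul_smul, ← pow_add, rs_rs D (im_sub τ s j)]
  rw [h1]
  refine sum_involution (fun q _ => (q.1.succAbove q.2, q.2.predAbove q.1)) ?_ ?_ ?_ ?_
  · rintro ⟨j, k⟩ -
    dsimp only
    have h2 : (fun i => s ((j.succAbove k).succAbove ((k.predAbove j).succAbove i))) =
        fun i => s (j.succAbove (k.succAbove i)) := by
      funext i
      rw [Fin.succAbove_succAbove_succAbove_predAbove]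
    rw [h2, Fin.neg_one_pow_succAbove_add_predAbove, neg_smul, add_neg_cancel]
  · rintro ⟨j, k⟩ - - h
    exact Fin.succAbove_ne j k (congrArg Prod.fst h)
  · rintro ⟨j, k⟩ -
    exact mem_univ _
  · rintro ⟨j, k⟩ -
    dsimp only
    rw [Fin.succAbove_succAbove_predAbove, Fin.predAbove_predAbove_succAbove]

theorem dl_mem (D : Dat K V ι n) {τ : Finset V} {r i : ℕ} {φ : (Fin r → Y τ) → A → ι → K}
    (h : ∀ s, φ s ∈ D.FS A i (im τ s)) (s : Fin (r + 1) → Y τ) :
    D.dl τ φ s ∈ D.FS A i (im τ s) := by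
  unfold Dat.dl
  refine Submodule.sum_mem _ (fun j _ => Submodule.smul_mem _ _ ?_)
  exact FS_rs D (im_sub τ s j) (h _)

theorem dl_add (D : Dat K V ι n) (τ : Finset V) {r : ℕ} (φ φ' : (Fin r → Y τ) → A → ι → K) :
    D.dl τ (φ + φ') = D.dl τ φ + D.dl τ φ' := by
  funext s
  rw [Pi.add_apply]
  unfold Dat.dl
  rw [← sum_add_distrib]
  refine sum_congr rfl (fun j _ => ?_)
  rw [Pi.add_apply, map_add, smul_add]

theorem dl_neg (D : Dat K V ι n) (τ : Finset V) {r : ℕ} (φ : (Fin r → Y τ) → A → ι → K) :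
    D.dl τ (-φ) = - D.dl τ φ := by
  funext s
  rw [Pi.neg_apply]
  unfold Dat.dl
  rw [← sum_neg_distrib]
  refine sum_congr rfl (fun j _ => ?_)
  rw [Pi.neg_apply, map_neg, smul_neg]

theorem dl_smul (D : Dat K V ι n) (τ : Finset V) {r : ℕ} (c : K)
    (φ : (Fin r → Y τ) → A → ι → K) : D.dl τ (c • φ) = c • D.dl τ φ := by
  funext s
  rw [Pi.smul_apply]
  unfold Dat.dl
  rw [smul_sum]
  refine sum_congr rfl (fun j _ => ?_)
  rw [Pi.smul_apply, map_smul, smul_comm]

theorem dl_Dop (D : Dat K V ι n) (γ : n → Matrix A A K) (τ : Finset V) {r : ℕ}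
    (φ : (Fin r → Y τ) → A → ι → K) :
    D.dl τ (fun s => D.Dop γ (φ s)) = fun s => D.Dop γ (D.dl τ φ s) := by
  funext s
  unfold Dat.dl
  rw [map_sum]
  refine sum_congr rfl (fun j _ => ?_)
  rw [map_smul, rs_Dop]

end Pool.Agent.Helper82.TI
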