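import Pool.Agent.Helper82.TI.Defs

/-!
# Project TI: Clifford matrices exist

PROOF. Let N = Fintype.card n and transport along an equivalence e : n ≃ Fin N. Take
A = Finset (Fin N). For j : Fin N put γ_j(B, C) = (-1)^(#{i ∈ C : i < j}) if
B = symmDiff C {j}, else 0. SYMMETRIC: B = C Δ {j} iff C = B Δ {j}, and B, C have the same
elements below j. SQUARE: the only c with γ_j(a,c) γ_j(c,b) ≠ 0 is c = b Δ {j}, then a = b, and the
two signs are equal. ANTICOMMUTE: for i < j, γ_i γ_j and γ_j γ_i are both supported on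
a = b Δ {i, j}; the sign of γ_i γ_j at (a, b) is (-1)^(#{b Δ {j} below i} + #{b below j}) and that
of γ_j γ_i is (-1)^(#{b Δ {i} below j} + #{b below i}); the first summands are #{b below i} and
#{b below j} ± 1.
-/

open Finset

namespace Pool.Agent.Helper82.TI

private def sg (K : Type) [Field K] {N : ℕ} (j : Fin N) (b : Finset (Fin N)) : K :=
  (-1) ^ (b.filter (fun i => i < j)).card

private theorem pow_flip (K : Type) [Field K] {N : ℕ} (k : Fin N) (T : Finset (Fin N)) :
    ((-1 : K)) ^ (symmDiff T {k}).card = - (-1) ^ T.card := by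
  by_cases hk : k ∈ T
  · have h1 : symmDiff T {k} = T.erase k := by
      ext x
      simp only [Finset.mem_symmDiff, Finset.mem_singleton, Finset.mem_erase]
      constructor
      · rintro (⟨h, h'⟩ | ⟨h, h'⟩)
        · exact ⟨h', h⟩
        · exact absurd (h ▸ hk) h'
      · rintro ⟨h, h'⟩
        exact Or.inl ⟨h', h⟩
    rw [h1, ← Finset.card_erase_add_one hk, pow_succ]
    ring
  · have h1 : symmDiff T {k} = insert k T := by
      ext x
      simp only [Finset.mem_symmDiff, Finset.mem_singleton, Finset.mem_insert]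
      constructor
      · rintro (⟨h, _⟩ | ⟨h, _⟩)
        · exact Or.inr h
        · exact Or.inl h
      · rintro (h | h)
        · exact Or.inr ⟨h, h ▸ hk⟩
        · exact Or.inl ⟨h, fun h' => hk (h' ▸ h)⟩
    rw [h1, Finset.card_insert_of_notMem hk, pow_succ]
    ring

private theorem sg_same (K : Type) [Field K] {N : ℕ} {j k : Fin N} (h : ¬ k < j)
    (b : Finset (Fin N)) : sg K j (symmDiff b {k}) = sg K j b := by
  unfold sg
  congr 2
  ext x
  simp only [Finset.mem_filter, Finset.mem_symmDiff, Finset.mem_singleton]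
  constructor
  · rintro ⟨⟨h1, _⟩ | ⟨h1, _⟩, h2⟩
    · exact ⟨h1, h2⟩
    · exact absurd (h1 ▸ h2) h
  · rintro ⟨h1, h2⟩
    exact ⟨Or.inl ⟨h1, fun h3 => h (h3 ▸ h2)⟩, h2⟩

private theorem sg_flip (K : Type) [Field K] {N : ℕ} {j k : Fin N} (h : k < j)
    (b : Finset (Fin N)) : sg K j (symmDiff b {k}) = - sg K j b := by
  unfold sg
  rw [← pow_flip K k (b.filter (fun i => i < j))]
  congr 2
  ext x
  simp only [Finset.mem_filter, Finset.mem_symmDiff, Finset.mem_singleton]
  constructor
  · rintro ⟨⟨h1, h3⟩ | ⟨h1, h3⟩, h2⟩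
    · exact Or.inl ⟨⟨h1, h2⟩, h3⟩
    · exact Or.inr ⟨h1, fun h4 => h3 h4.1⟩
  · rintro (⟨⟨h1, h2⟩, h3⟩ | ⟨h1, h3⟩)
    · exact ⟨Or.inl ⟨h1, h3⟩, h2⟩
    · have h2 : x < j := h1 ▸ h
      exact ⟨Or.inr ⟨h1, fun h4 => h3 ⟨h4, h2⟩⟩, h2⟩

private theorem sg_sq (K : Type) [Field K] {N : ℕ} (j : Fin N) (b : Finset (Fin N)) :
    sg K j b * sg K j b = 1 := by
  unfold sg
  rw [← mul_pow]
  simp

private def gm (K : Type) [Field K] {N : ℕ} (j : Fin N) :
    Matrix (Finset (Fin N)) (Finset (Fin N)) K :=
  fun B C => if B = symmDiff C {j} then sg K j C else 0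

private theorem gm_mul (K : Type) [Field K] {N : ℕ} (i j : Fin N) (a b : Finset (Fin N)) :
    ∑ c, gm K i a c * gm K j c b =
      if a = symmDiff (symmDiff b {j}) {i} then sg K i (symmDiff b {j}) * sg K j b else 0 := by
  rw [Finset.sum_eq_single (symmDiff b {j})]
  · unfold gm
    rw [if_pos (rfl : symmDiff b {j} = symmDiff b {j})]
    by_cases h : a = symmDiff (symmDiff b {j}) {i}
    · rw [if_pos h, if_pos h]
    · rw [if_neg h, if_neg h, zero_mul]
  · intro c _ hc
    unfold gm
    rw [if_neg hc, mul_zero]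
  · intro h
    exact absurd (Finset.mem_univ _) h

private theorem sd_sd {N : ℕ} (b : Finset (Fin N)) (j : Fin N) :
    symmDiff (symmDiff b {j}) {j} = b := symmDiff_symmDiff_cancel_right _ _

private theorem cl_gm (K : Type) [Field K] (N : ℕ) : Cl (gm K (N := N)) := by
  refine ⟨?_, ?_, ?_⟩
  · intro j a b
    unfold gm
    by_cases h : a = symmDiff b {j}
    · have h' : b = symmDiff a {j} := by rw [h, sd_sd]
      rw [if_pos h, if_pos h', h, sg_same K (lt_irrefl j)]
    · have h' : ¬ b = symmDiff a {j} := by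
        intro h'
        apply h
        rw [h', sd_sd]
      rw [if_neg h, if_neg h']
  · intro j a b
    rw [gm_mul, sd_sd, sg_same K (lt_irrefl j), sg_sq]
  · intro i j hij a b
    rw [gm_mul, gm_mul]
    have hc : symmDiff (symmDiff b {j}) {i} = symmDiff (symmDiff b {i}) {j} := by
      rw [symmDiff_assoc, symmDiff_assoc, symmDiff_comm ({j} : Finset (Fin N)) {i}]
    rw [hc]
    by_cases h : a = symmDiff (symmDiff b {i}) {j}
    · rw [if_pos h, if_pos h]
      rcases lt_or_gt_of_ne hij with hl | hl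
      · rw [sg_same K (not_lt.2 hl.le), sg_flip K hl]
        ring
      · rw [sg_flip K hl, sg_same K (not_lt.2 (le_of_lt hl))]
        ring
    · rw [if_neg h, if_neg h, neg_zero]

theorem exists_cl (K n : Type) [Field K] [Fintype n] :
    ∃ (A : Type) (_ : Fintype A) (_ : DecidableEq A) (_ : Nonempty A) (γ : n → Matrix A A K),
      Cl γ := by
  classical
  refine ⟨Finset (Fin (Fintype.card n)), inferInstance, inferInstance, inferInstance,
    fun j => gm K (Fintype.equivFin n j), ?_⟩
  have h := cl_gm K (Fintype.card n)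
  exact ⟨fun j => h.symm _, fun j => h.sq _, fun i j hij =>
    h.anti _ _ (fun h' => hij ((Fintype.equivFin n).injective h'))⟩

end Pool.Agent.Helper82.TI
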