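import Mathlib

/-!
# Project TI: the numerical data of a shelled complete simplicial fan at a generic point

`d` is the dimension, `ι` the set of facets, `fac f` the vertices of the facet `f`, `X v f` the
coordinate at the vertex `v` of the generic point in the cone of `f`, `w f` the weight of `f`,
`R f` the restriction set of `f` in a shelling with rank function `rk`, and `x v` a vector in a
Euclidean space for every vertex `v`.
-/

open Finset

namespace Pool.Agent.Helper82.TI

/-- The data. -/
structure Dat (K V ι n : Type) where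
  d : ℕ
  fac : ι → Finset V
  X : V → ι → K
  w : ι → K
  R : ι → Finset V
  rk : ι → ℕ
  x : V → n → K
  c2 : K

section

variable {K V ι n A : Type} [Field K] [LinearOrder K] [IsStrictOrderedRing K] [DecidableEq V]
  [Fintype V] [Fintype ι] [Fintype n] [Fintype A] [DecidableEq A]

/-- The value of a monomial in the coordinates at the facet `f`. -/
def Dat.mono (D : Dat K V ι n) (μ : Multiset V) (f : ι) : K := (μ.map (fun v => D.X v f)).prod

/-- The product of the coordinates of the vertices of `τ`. -/
def Dat.Xp (D : Dat K V ι n) (τ : Finset V) (f : ι) : K := ∏ v ∈ τ, D.X v f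

/-- The functions on the facets containing `τ` that are given by polynomials of degree less
than `i` in the coordinates (extended by zero). -/
def Dat.Fs (D : Dat K V ι n) (i : ℕ) (τ : Finset V) : Submodule K (ι → K) :=
  Submodule.span K {g | ∃ μ : Multiset V, Multiset.card μ < i ∧
    g = fun f => if τ ⊆ D.fac f then D.mono μ f else 0}

/-- The same for functions with values in the functions on `A`. -/
def Dat.FS (D : Dat K V ι n) (A : Type) (i : ℕ) (τ : Finset V) : Submodule K (A → ι → K) :=
  Submodule.pi Set.univ (fun _ => D.Fs i τ)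

/-- The point of the Euclidean space at the facet `f`. -/
def Dat.xf (D : Dat K V ι n) (f : ι) (j : n) : K := ∑ v, D.X v f * D.x v j

/-- Restriction to the facets containing `τ`. -/
def Dat.rs (D : Dat K V ι n) (τ : Finset V) : (A → ι → K) →ₗ[K] (A → ι → K) where
  toFun z := fun a f => if τ ⊆ D.fac f then z a f else 0
  map_add' := by
    intro z z'
    funext a f
    by_cases h : τ ⊆ D.fac f
    · simp only [if_pos h, Pi.add_apply]
    · simp only [if_neg h, Pi.add_apply, add_zero]
  map_smul' := by
    intro r z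
    funext a f
    by_cases h : τ ⊆ D.fac f
    · simp only [if_pos h, Pi.smul_apply, RingHom.id_apply]
    · simp only [if_neg h, Pi.smul_apply, RingHom.id_apply, smul_zero]

/-- Clifford matrices: symmetric, with square one, anticommuting. -/
structure Cl (γ : n → Matrix A A K) : Prop where
  symm : ∀ j a b, γ j a b = γ j b a
  sq : ∀ j a b, ∑ c, γ j a c * γ j c b = if a = b then 1 else 0
  anti : ∀ i j, i ≠ j → ∀ a b, ∑ c, γ i a c * γ j c b = - ∑ c, γ j a c * γ i c b

/-- Clifford multiplication by the vector `u`. -/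
def Gop (ι : Type) (γ : n → Matrix A A K) (u : n → K) : (A → ι → K) →ₗ[K] (A → ι → K) where
  toFun z := fun a f => ∑ j, u j * ∑ b, γ j a b * z b f
  map_add' := by
    intro z z'
    funext a f
    simp only [Pi.add_apply, mul_add, Finset.sum_add_distrib]
  map_smul' := by
    intro r z
    funext a f
    simp only [Pi.smul_apply, smul_eq_mul, RingHom.id_apply, Finset.mul_sum]
    refine Finset.sum_congr rfl (fun j _ => Finset.sum_congr rfl (fun b _ => ?_))
    ring

/-- Clifford multiplication by the points of the facets. -/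
def Dat.Dop (D : Dat K V ι n) (γ : n → Matrix A A K) : (A → ι → K) →ₗ[K] (A → ι → K) where
  toFun z := fun a f => ∑ j, D.xf f j * ∑ b, γ j a b * z b f
  map_add' := by
    intro z z'
    funext a f
    simp only [Pi.add_apply, mul_add, Finset.sum_add_distrib]
  map_smul' := by
    intro r z
    funext a f
    simp only [Pi.smul_apply, smul_eq_mul, RingHom.id_apply, Finset.mul_sum]
    refine Finset.sum_congr rfl (fun j _ => Finset.sum_congr rfl (fun b _ => ?_))
    ring

/-- The form of the star of `τ`. -/
def Dat.W (D : Dat K V ι n) (τ : Finset V) (z z' : A → ι → K) : K :=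
  ∑ f, D.w f * D.Xp τ f * ∑ a, z a f * z' a f

/-- The number of facets containing `τ` whose restriction set has less than `i` elements
outside `τ`. -/
def Dat.Hn (D : Dat K V ι n) (i : ℕ) (τ : Finset V) : ℕ :=
  (univ.filter (fun f => τ ⊆ D.fac f ∧ (D.R f \ τ).card < i)).card

/-- The number of facets containing `τ`. -/
def Dat.Nn (D : Dat K V ι n) (τ : Finset V) : ℕ :=
  (univ.filter (fun f => τ ⊆ D.fac f)).card

/-- The properties of the data. -/
structure Dat.Ok (D : Dat K V ι n) : Prop where
  card : ∀ f, (D.fac f).card = D.d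
  X_ne : ∀ v f, D.X v f ≠ 0 ↔ v ∈ D.fac f
  w_ne : ∀ f, D.w f ≠ 0
  loc : ∀ μ : Multiset V, Multiset.card μ < D.d → ∑ f, D.w f * D.mono μ f = 0
  rk_inj : Function.Injective D.rk
  R_sub : ∀ f, D.R f ⊆ D.fac f
  R_le : ∀ f g, D.R f ⊆ D.fac g → D.rk f ≤ D.rk g
  C_le : ∀ f g, D.fac f \ D.R f ⊆ D.fac g → D.rk g ≤ D.rk f
  par : ∀ τ : Finset V, (∃ f, τ ⊆ D.fac f) →
    ∑ f ∈ univ.filter (fun f => τ ⊆ D.fac f), (SignType.sign (D.w f * D.Xp τ f) : ℤ) =
    ∑ f ∈ univ.filter (fun f => τ ⊆ D.fac f), (-1 : ℤ) ^ (D.R f \ τ).card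
  sq : ∀ f, ∑ j, D.xf f j * D.xf f j = D.c2
  dual : ∀ v, ∃ u : n → K, ∀ v', ∑ j, u j * D.x v' j = if v' = v then 1 else 0

/-- Exactness below the middle at the face `τ` in degree `i`. -/
def Dat.VV (D : Dat K V ι n) (γ : n → Matrix A A K) (τ : Finset V) (i : ℕ) : Prop :=
  ∀ z ∈ D.FS A (i + 1) τ, D.Dop γ z ∈ D.FS A (i + 1) τ →
    ∃ p ∈ D.FS A i τ, ∃ q ∈ D.FS A i τ, z = p + D.Dop γ q

end

end Pool.Agent.Helper82.TI
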