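import Pool.Agent.Helper82.TI.Rex

/-!
# Project TI: local decompositions are global

PROOF of glue_aux, induction on i (for all r). ρ_s = im τ s. i = 0: FS 0 = 0 (FS_zero), so w = 0 and
p = q = 0. Step from i to i + 1 (so 2 (i+1) + (r+1) + #τ ≤ d). Choose p' s, q' s ∈ FS (i+1) ρ_s
with w s = p' s + D (q' s) (choice). dl w = 0 and dl_Dop give: dl p' + D (dl q') = 0. Put
E = dl q' (a function on (r+2)-tuples): E s ∈ FS (i+1) ρ_s (dl_mem) and D (E s) = - (dl p') s ∈
FS (i+1) ρ_s. By IH for ρ_s (τ ⊂ ρ_s by ssub_im, 2 i + #ρ_s ≤ 2 i + #τ + r + 2 < d by card_im):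
E s = p + D q with p, q ∈ FS i ρ_s. dl E = 0 (dl_dl). By the induction hypothesis (r + 1 in place
of r: 2 i + (r + 2) + #τ ≤ d): E = e1 + D e2, e1 s, e2 s ∈ FS i ρ_s, dl e1 = dl e2 = 0. By R_exact
((r + 1) + 1 + i + #τ ≤ d): e1 = dl e1', e2 = dl e2' with e1' s, e2' s ∈ FS i ρ_s for (r+1)-tuples.
Put q = q' - e1' - D e2' and p = p' + D e1' + c2 e2' (in FS (i+1) ρ_s). Then dl q = E - e1 - D e2 = 0,
p + D q = p' + D q' = w (Dop_Dop), dl p = dl w - D (dl q) = 0.
PROOF of glue. Let w s = rs (im τ s) z for 1-tuples s (so im τ s = insert (s 0) τ). (dl w) s =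
rs (ρ_s) z - rs (ρ_s) z = 0 (rs_rs). glue_aux with r = 0 gives p, q with dl p = dl q = 0;
R_exact with r = 0 (0 + 1 + i + #τ ≤ d) gives p = dl p0, q = dl q0 where p0, q0 are functions of the
empty tuple, p0, q0 ∈ FS i τ (im τ of the empty tuple is τ), i.e. p s = rs ρ_s p0, q s = rs ρ_s q0.
Then rs (insert v τ) (z - p0 - D q0) = 0 for all v ∉ τ (rs_Dop). If τ ⊆ fac f, then #τ < d =
#(fac f), so there is v ∈ fac f \ τ and (z - p0 - D q0) a f = 0; if not τ ⊆ fac f, it is zero by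
FS_supp. So z = p0 + D q0.
-/

open Finset

namespace Pool.Agent.Helper82.TI

variable {K V ι n A : Type} [Field K] [LinearOrder K] [IsStrictOrderedRing K] [DecidableEq V]
  [Fintype V] [Fintype ι] [Fintype n] [Fintype A] [DecidableEq A]

theorem glue_aux {D : Dat K V ι n} (hD : D.Ok) {γ : n → Matrix A A K} (hγ : Cl γ) {τ : Finset V}
    (IH : ∀ ρ : Finset V, τ ⊂ ρ → ∀ j, 2 * j + ρ.card < D.d → D.VV γ ρ j) (i : ℕ) :
    ∀ r : ℕ, 2 * i + (r + 1) + τ.card ≤ D.d → ∀ w : (Fin (r + 1) → Y τ) → A → ι → K,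
      D.dl τ w = 0 →
      (∀ s, ∃ p ∈ D.FS A i (im τ s), ∃ q ∈ D.FS A i (im τ s), w s = p + D.Dop γ q) →
      ∃ p q : (Fin (r + 1) → Y τ) → A → ι → K, (∀ s, p s ∈ D.FS A i (im τ s)) ∧
        (∀ s, q s ∈ D.FS A i (im τ s)) ∧ D.dl τ p = 0 ∧ D.dl τ q = 0 ∧
        ∀ s, w s = p s + D.Dop γ (q s) := by
  induction i with
  | zero =>
    intro r _ w _ hw
    have hdl0 : D.dl τ (0 : (Fin (r + 1) → Y τ) → A → ι → K) = 0 := by
      have h1 := dl_smul D τ (0 : K) (0 : (Fin (r + 1) → Y τ) → A → ι → K)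
      rw [zero_smul, zero_smul] at h1
      exact h1
    refine ⟨0, 0, fun s => Submodule.zero_mem _, fun s => Submodule.zero_mem _, hdl0, hdl0,
      fun s => ?_⟩
    obtain ⟨p, hp, q, hq, h⟩ := hw s
    rw [h, FS_zero D hp, FS_zero D hq]
    rfl
  | succ i ih =>
    intro r hr w hw0 hw
    choose p' hp' q' hq' hpq using hw
    -- the equation for the coboundaries
    have hwe : w = p' + fun s => D.Dop γ (q' s) := by
      funext s
      exact hpq s
    have hE1 : D.dl τ p' + (fun s => D.Dop γ (D.dl τ q' s)) = 0 := by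
      rw [← dl_Dop, ← dl_add, ← hwe]
      exact hw0
    have hE2 : ∀ s, D.Dop γ (D.dl τ q' s) = - D.dl τ p' s := by
      intro s
      have h1 := congrFun hE1 s
      rw [Pi.add_apply, Pi.zero_apply] at h1
      exact (neg_eq_of_add_eq_zero_right h1).symm
    have hEw : ∀ s, ∃ p ∈ D.FS A i (im τ s), ∃ q ∈ D.FS A i (im τ s),
        D.dl τ q' s = p + D.Dop γ q := by
      intro s
      have hc := card_im τ s
      refine IH (im τ s) (ssub_im τ s) i (by omega) (D.dl τ q' s) (dl_mem D hq' s) ?_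
      rw [hE2 s]
      exact Submodule.neg_mem _ (dl_mem D hp' s)
    obtain ⟨e1, e2, he1, he2, hd1, hd2, he⟩ := ih (r + 1) (by omega) (D.dl τ q') (dl_dl D τ q') hEw
    obtain ⟨f1, hf1, hg1⟩ := R_exact hD (r := r + 1) (i := i) (by omega) he1 hd1
    obtain ⟨f2, hf2, hg2⟩ := R_exact hD (r := r + 1) (i := i) (by omega) he2 hd2
    have hmono : ∀ ρ : Finset V, D.FS A i ρ ≤ D.FS A (i + 1) ρ :=
      fun ρ => FS_mono D (Nat.le_succ i) ρ
    have hq0 : D.dl τ (q' + -(f1 + fun s => D.Dop γ (f2 s))) = 0 := by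
      rw [dl_add, dl_neg, dl_add, dl_Dop, hg1, hg2]
      funext s
      rw [Pi.add_apply, Pi.neg_apply, Pi.add_apply, he s, Pi.zero_apply]
      exact add_neg_cancel _
    have hsum : ∀ s, w s = (p' + ((fun s => D.Dop γ (f1 s)) + D.c2 • f2)) s +
        D.Dop γ ((q' + -(f1 + fun s => D.Dop γ (f2 s))) s) := by
      intro s
      rw [hpq s]
      simp only [Pi.add_apply, Pi.neg_apply, Pi.smul_apply]
      rw [map_add, map_neg, map_add, Dop_Dop hD hγ]
      abel
    refine ⟨p' + ((fun s => D.Dop γ (f1 s)) + D.c2 • f2),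
      q' + -(f1 + fun s => D.Dop γ (f2 s)), fun s => ?_, fun s => ?_, ?_, hq0, hsum⟩
    · refine Submodule.add_mem _ (hp' s) (Submodule.add_mem _ (FS_Dop D γ (hf1 s))
        (Submodule.smul_mem _ _ (hmono _ (hf2 s))))
    · exact Submodule.add_mem _ (hq' s) (Submodule.neg_mem _
        (Submodule.add_mem _ (hmono _ (hf1 s)) (FS_Dop D γ (hf2 s))))
    · have h1 : w = (p' + ((fun s => D.Dop γ (f1 s)) + D.c2 • f2)) +
          fun s => D.Dop γ ((q' + -(f1 + fun s => D.Dop γ (f2 s))) s) := by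
        funext s
        exact hsum s
      rw [h1, dl_add, dl_Dop, hq0] at hw0
      have h2 : (fun s => D.Dop γ ((0 : (Fin (r + 1 + 1) → Y τ) → A → ι → K) s)) =
          (0 : (Fin (r + 1 + 1) → Y τ) → A → ι → K) := by
        funext s
        rw [Pi.zero_apply, map_zero]
      rw [h2, add_zero] at hw0
      exact hw0

omit [Fintype V] in
private theorem im_one (τ : Finset V) (s : Fin (0 + 1) → Y τ) : im τ s = insert (s 0).1 τ := by
  ext v
  unfold im
  simp only [mem_union, mem_image, mem_univ, true_and, mem_insert]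
  constructor
  · rintro (h | ⟨j, hj⟩)
    · exact Or.inr h
    · left
      rw [← hj, show j = 0 from Fin.eq_zero j]
  · rintro (h | h)
    · exact Or.inr ⟨0, h.symm⟩
    · exact Or.inl h

omit [Fintype V] in
private theorem im_nil (τ : Finset V) (s : Fin 0 → Y τ) : im τ s = τ := by
  unfold im
  rw [Finset.univ_eq_empty, image_empty, union_empty]

private theorem dl_nil (D : Dat K V ι n) (τ : Finset V) (φ : (Fin 0 → Y τ) → A → ι → K)
    (e : Fin 0 → Y τ) (s : Fin (0 + 1) → Y τ) : D.dl τ φ s = D.rs (insert (s 0).1 τ) (φ e) := by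
  unfold Dat.dl
  rw [im_one]
  have h : ∀ j : Fin (0 + 1), (-1 : K) ^ (j : ℕ) •
      D.rs (insert (s 0).1 τ) (φ (fun i => s (j.succAbove i))) =
      D.rs (insert (s 0).1 τ) (φ e) := by
    intro j
    have hj : j = 0 := Fin.eq_zero j
    have he : (fun i : Fin 0 => s (j.succAbove i)) = e := Subsingleton.elim _ _
    rw [he, hj]
    simp
  rw [sum_congr rfl (fun j _ => h j)]
  simp

theorem glue {D : Dat K V ι n} (hD : D.Ok) {γ : n → Matrix A A K} (hγ : Cl γ) {τ : Finset V}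
    (IH : ∀ ρ : Finset V, τ ⊂ ρ → ∀ j, 2 * j + ρ.card < D.d → D.VV γ ρ j) {i : ℕ}
    (h : 2 * i + τ.card < D.d) {z : A → ι → K}
    (hz : z ∈ D.FS A (i + 1) τ)
    (hloc : ∀ v ∉ τ, ∃ p ∈ D.FS A i (insert v τ), ∃ q ∈ D.FS A i (insert v τ),
      D.rs (insert v τ) z = p + D.Dop γ q) :
    ∃ p ∈ D.FS A i τ, ∃ q ∈ D.FS A i τ, z = p + D.Dop γ q := by
  have hw0 : D.dl τ (fun s : Fin (0 + 1) → Y τ => D.rs (im τ s) z) = 0 := by
    funext s
    unfold Dat.dl
    rw [Fin.sum_univ_two, rs_rs D (im_sub τ s 0), rs_rs D (im_sub τ s 1)]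
    simp
  obtain ⟨p, q, hp, hq, hp0, hq0, hpq⟩ := glue_aux hD hγ IH i 0 (by omega)
    (fun s : Fin (0 + 1) → Y τ => D.rs (im τ s) z) hw0 (fun s => by
      show ∃ p ∈ D.FS A i (im τ s), ∃ q ∈ D.FS A i (im τ s), D.rs (im τ s) z = p + D.Dop γ q
      rw [im_one]
      exact hloc _ (s 0).2)
  obtain ⟨p1, hp1, hpe⟩ := R_exact hD (r := 0) (i := i) (by omega) hp hp0
  obtain ⟨q1, hq1, hqe⟩ := R_exact hD (r := 0) (i := i) (by omega) hq hq0
  have hP := hp1 Fin.elim0
  have hQ := hq1 Fin.elim0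
  rw [im_nil] at hP hQ
  refine ⟨p1 Fin.elim0, hP, q1 Fin.elim0, hQ, ?_⟩
  funext a f
  by_cases hf : τ ⊆ D.fac f
  · obtain ⟨v, hv, hvτ⟩ := exists_mem_notMem_of_card_lt_card
      (show τ.card < (D.fac f).card by rw [hD.card f]; omega)
    have h1 := hpq (fun _ => ⟨v, hvτ⟩)
    rw [← hpe, ← hqe, dl_nil D τ p1 Fin.elim0, dl_nil D τ q1 Fin.elim0, ← rs_Dop] at h1
    dsimp only at h1
    rw [im_one] at h1
    have h2 := congrFun (congrFun h1 a) f
    have hin : insert v τ ⊆ D.fac f := insert_subset hv hf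
    have h3 : ∀ y : A → ι → K, D.rs (insert v τ) y a f = y a f := fun y => if_pos hin
    rw [Pi.add_apply, Pi.add_apply] at h2
    rw [h3, h3, h3] at h2
    rw [Pi.add_apply, Pi.add_apply]
    exact h2
  · rw [Pi.add_apply, Pi.add_apply, FS_supp D hz hf a, FS_supp D hP hf a,
      FS_supp D (FS_Dop D γ hQ) hf a, add_zero]

end Pool.Agent.Helper82.TI
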