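import Pool.Agent.Helper82.TI.BDim
import Pool.Agent.Helper82.TI.Count

/-!
# Project TI: the Hodge-Riemann argument

Let 2 l + #τ = d, S = {f : τ ⊆ fac f}, N = Nn τ, s = card A, e f = w f * Xp τ f ≠ 0 for f ∈ S
(and Xp τ f = 0 for f ∉ S).
(0) b j := finrank (Bs j) / s... define b : ℕ → ℤ recursively by b 0 = 0, b (j+1) = 2 Hn (j+1) - b j;
by finrank_Bs and Bs_zero, finrank (Bs j) = s * b j for all j ≤ l (hV j for j < l; j + #τ ≤ d holds).
By sgn_eq (with Hn_symm): (-1)^l ∑_{f ∈ S} (-1)^#(R f \ τ) = N - 2 b l.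
(1) Bs l is ISOTROPIC for W τ: for p, q, p', q' ∈ FS l: W(p + D q, p' + D q') = W(p,p') + W(p, D q')
+ W(D q, p') + c2 W(q, q') (W_Dop, Dop_Dop), all zero by W_zero (l + (l+1) + #τ ≤ d + 1).
If z ∈ FS (l+1) and D z ∈ FS (l+1) then W(z, p + D q) = W(z, p) + W(D z, q) = 0 (same bound).
(2) SIGNS. Let wrong = {f ∈ S : (-1)^l e f < 0}, right = {f ∈ S : (-1)^l e f > 0}. If U is a subspace
of the functions supported on S with W(y,y) = 0 for all y ∈ U, then restriction to the coordinates in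
wrong is injective on U: if y vanishes on wrong then 0 = (-1)^l W(y,y) = ∑_{f ∈ right} (-1)^l e f
∑_a (y a f)², all terms ≥ 0, so y = 0. Hence finrank U ≤ s * #wrong; the same for right.
(3) hr: U = Bs l ⊔ span {z}: W(y,y) = 0 on U by (1) and hW. By hD.par (if S is nonempty; if S is
empty then z = 0 by FS_supp): ∑_{f ∈ S} sign (e f) = ∑_{f ∈ S} (-1)^#(R f \ τ), so
#right - #wrong = N - 2 b l and #right + #wrong = N, so #wrong = b l, so
finrank U ≤ s * b l = finrank (Bs l), so U = Bs l, z ∈ Bs l.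
(4) fin: τ = ∅, l = k: finrank (Bs k) = s * b k ≤ s * #wrong and ≤ s * #right, so 2 b k ≤ N (s > 0),
and (-1)^k ∑ (-1)^#(R f) = N - 2 b k ≥ 0. (d - 0 = 2 k.)
-/

open Finset

namespace Pool.Agent.Helper82.TI

variable {K V ι n A : Type} [Field K] [LinearOrder K] [IsStrictOrderedRing K] [DecidableEq V]
  [Fintype V] [Fintype ι] [Fintype n] [Fintype A] [DecidableEq A]

namespace HRAux

/-- The dimensions of the spaces `Bs`, divided by the number of elements of `A`. -/
def bz (D : Dat K V ι n) (τ : Finset V) : ℕ → ℤ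
  | 0 => 0
  | j + 1 => 2 * (D.Hn (j + 1) τ : ℤ) - bz D τ j

theorem finrank_Bs_eq {D : Dat K V ι n} (hD : D.Ok) {γ : n → Matrix A A K} (hγ : Cl γ) {l : ℕ}
    {τ : Finset V} (h : 2 * l + τ.card = D.d) (hV : ∀ j < l, D.VV γ τ j) :
    ∀ j ≤ l, (Module.finrank K (D.Bs γ τ j) : ℤ) = Fintype.card A * bz D τ j := by
  intro j
  induction j with
  | zero =>
    intro _
    rw [Bs_zero]
    simp [bz]
  | succ j ih =>
    intro hj
    have h1 := finrank_Bs hD hγ (j := j) (τ := τ) (by omega) (hV j (by omega))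
    have h2 := ih (by omega)
    have h3 : (Module.finrank K (D.Bs γ τ (j + 1)) : ℤ) + Module.finrank K (D.Bs γ τ j) =
        2 * (Fintype.card A * D.Hn (j + 1) τ) := by exact_mod_cast h1
    rw [h2] at h3
    have h4 : bz D τ (j + 1) = 2 * (D.Hn (j + 1) τ : ℤ) - bz D τ j := rfl
    rw [h4, mul_sub]
    linarith

theorem finrank_le_wrong {D : Dat K V ι n} {τ : Finset V} (ε : K) (T : Finset ι)
    (hT : ∀ f, τ ⊆ D.fac f → f ∉ T → 0 < ε * (D.w f * D.Xp τ f))
    (U : Submodule K (A → ι → K)) (hs : ∀ y ∈ U, ∀ a f, ¬ τ ⊆ D.fac f → y a f = 0)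
    (hU : ∀ y ∈ U, D.W τ y y = 0) :
    Module.finrank K U ≤ Fintype.card A * T.card := by
  let r : U →ₗ[K] (A × T → K) :=
    { toFun := fun y p => (y : A → ι → K) p.1 p.2
      map_add' := fun _ _ => rfl
      map_smul' := fun _ _ => rfl }
  have hr : Function.Injective r := by
    rw [injective_iff_map_eq_zero]
    intro y hy
    have hy0 : ∀ a, ∀ f ∈ T, (y : A → ι → K) a f = 0 := by
      intro a f hf
      exact congrFun hy (a, ⟨f, hf⟩)
    have h1 := hU y y.2
    have h2 : ∑ f, ε * (D.w f * D.Xp τ f) *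
        ∑ a, (y : A → ι → K) a f * (y : A → ι → K) a f = 0 := by
      have h3 : ∑ f, ε * (D.w f * D.Xp τ f) *
          ∑ a, (y : A → ι → K) a f * (y : A → ι → K) a f =
            ε * D.W τ (y : A → ι → K) (y : A → ι → K) := by
        rw [Dat.W, Finset.mul_sum]
        refine Finset.sum_congr rfl (fun f _ => ?_)
        rw [mul_assoc]
      rw [h3, h1, mul_zero]
    have hsq : ∀ f, 0 ≤ ∑ a, (y : A → ι → K) a f * (y : A → ι → K) a f :=
      fun f => Finset.sum_nonneg (fun a _ => mul_self_nonneg _)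
    have hnn : ∀ f ∈ (univ : Finset ι), 0 ≤ ε * (D.w f * D.Xp τ f) *
        ∑ a, (y : A → ι → K) a f * (y : A → ι → K) a f := by
      intro f _
      by_cases hf : τ ⊆ D.fac f
      · by_cases hfT : f ∈ T
        · have h4 : ∑ a, (y : A → ι → K) a f * (y : A → ι → K) a f = 0 :=
            Finset.sum_eq_zero (fun a _ => by rw [hy0 a f hfT, mul_zero])
          rw [h4, mul_zero]
        · exact mul_nonneg (hT f hf hfT).le (hsq f)
      · have h4 : ∑ a, (y : A → ι → K) a f * (y : A → ι → K) a f = 0 :=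
          Finset.sum_eq_zero (fun a _ => by rw [hs y y.2 a f hf, mul_zero])
        rw [h4, mul_zero]
    have h5 := (Finset.sum_eq_zero_iff_of_nonneg hnn).1 h2
    apply Subtype.ext
    funext a f
    by_cases hf : τ ⊆ D.fac f
    · by_cases hfT : f ∈ T
      · exact hy0 a f hfT
      · have h6 := h5 f (Finset.mem_univ f)
        have h7 : ∑ a, (y : A → ι → K) a f * (y : A → ι → K) a f = 0 :=
          (mul_eq_zero.1 h6).resolve_left (hT f hf hfT).ne'
        have h8 := (Finset.sum_eq_zero_iff_of_nonneg (fun a _ => mul_self_nonneg _)).1 h7 a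
          (Finset.mem_univ a)
        exact mul_self_eq_zero.1 h8
    · exact hs y y.2 a f hf
  have h1 := LinearMap.finrank_le_finrank_of_injective hr
  rw [Module.finrank_fintype_fun_eq_card, Fintype.card_prod, Fintype.card_coe] at h1
  exact h1

theorem e_ne {D : Dat K V ι n} (hD : D.Ok) {τ : Finset V} {f : ι} (hf : τ ⊆ D.fac f) :
    D.w f * D.Xp τ f ≠ 0 := by
  refine mul_ne_zero (hD.w_ne f) ?_
  rw [Dat.Xp, Finset.prod_ne_zero_iff]
  intro v hv
  exact (hD.X_ne v f).2 (hf hv)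

theorem card_signs {D : Dat K V ι n} (hD : D.Ok) (τ : Finset V) (l : ℕ) :
    (((univ.filter (fun f => τ ⊆ D.fac f)).filter
        (fun f => 0 < (-1 : K) ^ l * (D.w f * D.Xp τ f))).card : ℤ) +
      ((univ.filter (fun f => τ ⊆ D.fac f)).filter
        (fun f => (-1 : K) ^ l * (D.w f * D.Xp τ f) < 0)).card = D.Nn τ ∧
    (((univ.filter (fun f => τ ⊆ D.fac f)).filter
        (fun f => 0 < (-1 : K) ^ l * (D.w f * D.Xp τ f))).card : ℤ) -
      ((univ.filter (fun f => τ ⊆ D.fac f)).filter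
        (fun f => (-1 : K) ^ l * (D.w f * D.Xp τ f) < 0)).card =
      (-1 : ℤ) ^ l * ∑ f ∈ univ.filter (fun f => τ ⊆ D.fac f),
        (SignType.sign (D.w f * D.Xp τ f) : ℤ) := by
  have hne : ∀ f ∈ univ.filter (fun f => τ ⊆ D.fac f), D.w f * D.Xp τ f ≠ 0 :=
    fun f hf => e_ne hD (Finset.mem_filter.1 hf).2
  rw [Finset.natCast_card_filter, Finset.natCast_card_filter, ← Finset.sum_add_distrib,
    ← Finset.sum_sub_distrib, Finset.mul_sum]
  constructor
  · rw [Dat.Nn, Finset.card_eq_sum_ones, Nat.cast_sum]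
    refine Finset.sum_congr rfl (fun f hf => ?_)
    rcases lt_or_gt_of_ne (hne f hf) with h | h <;> rcases neg_one_pow_eq_or K l with h' | h' <;>
      rw [h'] <;> simp [h, not_lt.2 h.le]
  · refine Finset.sum_congr rfl (fun f hf => ?_)
    rcases Nat.even_or_odd l with hl | hl
    · rw [hl.neg_one_pow, hl.neg_one_pow, one_mul, one_mul]
      rcases lt_or_gt_of_ne (hne f hf) with h | h
      · rw [sign_neg h, if_neg (not_lt.2 h.le), if_pos h]
        simp
      · rw [sign_pos h, if_pos h, if_neg (not_lt.2 h.le)]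
        simp
    · rw [hl.neg_one_pow, hl.neg_one_pow, neg_one_mul, neg_one_mul]
      rcases lt_or_gt_of_ne (hne f hf) with h | h
      · rw [sign_neg h, if_pos (neg_pos.2 h), if_neg (not_lt.2 (neg_pos.2 h).le)]
        simp
      · rw [sign_pos h, if_neg (not_lt.2 (neg_lt_zero.2 h).le), if_pos (neg_lt_zero.2 h)]
        simp

/-- The numbers of the two signs. -/
theorem card_eq {D : Dat K V ι n} (hD : D.Ok) {l : ℕ} {τ : Finset V}
    (h : 2 * l + τ.card = D.d) (hS : ∃ f, τ ⊆ D.fac f) :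
    (-1 : ℤ) ^ l * ∑ f ∈ univ.filter (fun f => τ ⊆ D.fac f), (-1 : ℤ) ^ (D.R f \ τ).card =
      D.Nn τ - 2 * bz D τ l ∧
    (((univ.filter (fun f => τ ⊆ D.fac f)).filter
        (fun f => 0 < (-1 : K) ^ l * (D.w f * D.Xp τ f))).card : ℤ) = D.Nn τ - bz D τ l ∧
    (((univ.filter (fun f => τ ⊆ D.fac f)).filter
        (fun f => (-1 : K) ^ l * (D.w f * D.Xp τ f) < 0)).card : ℤ) = bz D τ l := by
  have h1 := sgn_eq hD h (fun i j hij => Hn_symm hD hij) (bz D τ) rfl (fun j _ => by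
    have : bz D τ (j + 1) = 2 * (D.Hn (j + 1) τ : ℤ) - bz D τ j := rfl
    rw [this]
    ring)
  obtain ⟨h2, h3⟩ := card_signs hD τ l
  rw [hD.par τ hS, h1] at h3
  exact ⟨h1, by linarith, by linarith⟩

theorem W_add' (D : Dat K V ι n) (τ : Finset V) (z z' z'' : A → ι → K) :
    D.W τ z (z' + z'') = D.W τ z z' + D.W τ z z'' := by
  rw [W_symm, W_add, W_symm D τ z', W_symm D τ z'']

theorem W_smul' (D : Dat K V ι n) (τ : Finset V) (c : K) (z z' : A → ι → K) :
    D.W τ z (c • z') = c * D.W τ z z' := by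
  rw [W_symm, W_smul, W_symm D τ z']

theorem mem_Bs {D : Dat K V ι n} {γ : n → Matrix A A K} {τ : Finset V} {i : ℕ}
    {y : A → ι → K} (hy : y ∈ D.Bs γ τ i) :
    ∃ p ∈ D.FS A i τ, ∃ q ∈ D.FS A i τ, y = p + D.Dop γ q := by
  rw [Dat.Bs, Submodule.mem_sup] at hy
  obtain ⟨p, hp, r, hr, rfl⟩ := hy
  rw [Submodule.mem_map] at hr
  obtain ⟨q, hq, rfl⟩ := hr
  exact ⟨p, hp, q, hq, rfl⟩

/-- Isotropy. -/
theorem isotropic {D : Dat K V ι n} (hD : D.Ok) {γ : n → Matrix A A K} (hγ : Cl γ) {l : ℕ}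
    {τ : Finset V} (h : 2 * l + τ.card = D.d) {y : A → ι → K}
    (hy : y ∈ D.Bs γ τ l) : D.W τ y y = 0 := by
  obtain ⟨p, hp, q, hq, rfl⟩ := mem_Bs hy
  have h1 : D.W τ p p = 0 := W_zero hD (by omega) hp hp
  have h2 : D.W τ p (D.Dop γ q) = 0 := W_zero hD (by omega) hp (FS_Dop D γ hq)
  have h3 : D.W τ (D.Dop γ q) p = 0 := by rw [W_symm]; exact h2
  have h4 : D.W τ (D.Dop γ q) (D.Dop γ q) = 0 := by
    have h5 : D.W τ q q = 0 := W_zero hD (by omega) hq hq
    rw [W_Dop D hγ, Dop_Dop hD hγ, W_smul', h5, mul_zero]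
  rw [W_add, W_add', W_add', h1, h2, h3, h4]
  simp

/-- The orthogonality of `z`. -/
theorem orth {D : Dat K V ι n} (hD : D.Ok) {γ : n → Matrix A A K} (hγ : Cl γ) {l : ℕ}
    {τ : Finset V} (h : 2 * l + τ.card = D.d) {y z : A → ι → K}
    (hy : y ∈ D.Bs γ τ l) (hz : z ∈ D.FS A (l + 1) τ)
    (hz' : D.Dop γ z ∈ D.FS A (l + 1) τ) : D.W τ z y = 0 := by
  obtain ⟨p, hp, q, hq, rfl⟩ := mem_Bs hy
  have h1 : D.W τ z p = 0 := W_zero hD (by omega) hz hp
  have h2 : D.W τ z (D.Dop γ q) = 0 := by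
    rw [← W_Dop D hγ]
    exact W_zero hD (by omega) hz' hq
  rw [W_add', h1, h2, add_zero]

theorem supp_Bs {D : Dat K V ι n} {γ : n → Matrix A A K} {τ : Finset V} {i : ℕ}
    {y : A → ι → K} (hy : y ∈ D.Bs γ τ i) (a : A) (f : ι) (hf : ¬ τ ⊆ D.fac f) : y a f = 0 := by
  obtain ⟨p, hp, q, hq, rfl⟩ := mem_Bs hy
  rw [Pi.add_apply, Pi.add_apply, FS_supp D hp hf a, FS_supp D (FS_Dop D γ hq) hf a, add_zero]

end HRAux

open HRAux

theorem hr [Nonempty A] {D : Dat K V ι n} (hD : D.Ok) {γ : n → Matrix A A K} (hγ : Cl γ) {l : ℕ}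
    {τ : Finset V} (h : 2 * l + τ.card = D.d) (hV : ∀ j < l, D.VV γ τ j) {z : A → ι → K}
    (hz : z ∈ D.FS A (l + 1) τ) (hz' : D.Dop γ z ∈ D.FS A (l + 1) τ) (hW : D.W τ z z = 0) :
    ∃ p ∈ D.FS A l τ, ∃ q ∈ D.FS A l τ, z = p + D.Dop γ q := by
  by_cases hS : ∃ f, τ ⊆ D.fac f
  · have hU := finrank_le_wrong (D := D) (τ := τ) ((-1 : K) ^ l)
      ((univ.filter (fun f => τ ⊆ D.fac f)).filter
        (fun f => (-1 : K) ^ l * (D.w f * D.Xp τ f) < 0))
      (by
        intro f hf hfT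
        rw [Finset.mem_filter, Finset.mem_filter, not_and] at hfT
        have h1 := hfT ⟨Finset.mem_univ f, hf⟩
        have h2 : (-1 : K) ^ l * (D.w f * D.Xp τ f) ≠ 0 :=
          mul_ne_zero (pow_ne_zero _ (neg_ne_zero.2 one_ne_zero)) (e_ne hD hf)
        exact lt_of_le_of_ne (not_lt.1 h1) h2.symm)
      (D.Bs γ τ l ⊔ Submodule.span K {z})
      (by
        intro y hy a f hf
        rw [Submodule.mem_sup] at hy
        obtain ⟨u, hu, v, hv, rfl⟩ := hy
        obtain ⟨c, rfl⟩ := Submodule.mem_span_singleton.1 hv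
        rw [Pi.add_apply, Pi.add_apply, supp_Bs hu a f hf, Pi.smul_apply, Pi.smul_apply,
          FS_supp D hz hf a, smul_zero, add_zero])
      (by
        intro y hy
        rw [Submodule.mem_sup] at hy
        obtain ⟨u, hu, v, hv, rfl⟩ := hy
        obtain ⟨c, rfl⟩ := Submodule.mem_span_singleton.1 hv
        have h1 := isotropic hD hγ h hu
        have h2 := orth hD hγ h hu hz hz'
        rw [W_add, W_add', W_add', h1, W_smul', W_symm D τ u z, h2, W_smul, h2, W_smul, W_smul', hW]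
        simp)
    have h3 := (card_eq hD h hS).2.2
    have h4 := finrank_Bs_eq hD hγ h hV l le_rfl
    have h5 : Module.finrank K (D.Bs γ τ l ⊔ Submodule.span K {z} : Submodule K (A → ι → K)) ≤
        Module.finrank K (D.Bs γ τ l) := by
      have h6 : (Module.finrank K (D.Bs γ τ l ⊔ Submodule.span K {z} :
          Submodule K (A → ι → K)) : ℤ) ≤ Module.finrank K (D.Bs γ τ l) := by
        rw [h4, ← h3]
        exact_mod_cast hU
      exact_mod_cast h6
    have h7 : D.Bs γ τ l = D.Bs γ τ l ⊔ Submodule.span K {z} :=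
      Submodule.eq_of_le_of_finrank_le le_sup_left h5
    apply mem_Bs (γ := γ)
    rw [h7]
    exact Submodule.mem_sup_right (Submodule.mem_span_singleton_self z)
  · have hz0 : z = 0 := by
      funext a f
      exact FS_supp D hz (fun hf => hS ⟨f, hf⟩) a
    exact ⟨0, Submodule.zero_mem _, 0, Submodule.zero_mem _, by rw [hz0, map_zero, add_zero]⟩

theorem fin [Nonempty A] {D : Dat K V ι n} (hD : D.Ok) {γ : n → Matrix A A K} (hγ : Cl γ) {k : ℕ}
    (h : 2 * k = D.d) (hV : ∀ j < k, D.VV γ ∅ j) :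
    0 ≤ (-1 : ℤ) ^ k * ∑ f, (-1 : ℤ) ^ (D.R f).card := by
  by_cases hS : ∃ f, (∅ : Finset V) ⊆ D.fac f
  · have h0 : 2 * k + (∅ : Finset V).card = D.d := by simpa using h
    obtain ⟨h1, h2, h3⟩ := card_eq hD h0 hS
    have hne : ∀ f, (∅ : Finset V) ⊆ D.fac f → (-1 : K) ^ k * (D.w f * D.Xp ∅ f) ≠ 0 :=
      fun f hf => mul_ne_zero (pow_ne_zero _ (neg_ne_zero.2 one_ne_zero)) (e_ne hD hf)
    have hA := finrank_le_wrong (D := D) (τ := ∅) ((-1 : K) ^ k)
      ((univ.filter (fun f => (∅ : Finset V) ⊆ D.fac f)).filter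
        (fun f => (-1 : K) ^ k * (D.w f * D.Xp ∅ f) < 0))
      (by
        intro f hf hfT
        rw [Finset.mem_filter, Finset.mem_filter, not_and] at hfT
        exact lt_of_le_of_ne (not_lt.1 (hfT ⟨Finset.mem_univ f, hf⟩)) (hne f hf).symm)
      (D.Bs γ ∅ k) (fun y hy a f hf => supp_Bs hy a f hf) (fun y hy => isotropic hD hγ h0 hy)
    have hB := finrank_le_wrong (D := D) (τ := ∅) (-(-1 : K) ^ k)
      ((univ.filter (fun f => (∅ : Finset V) ⊆ D.fac f)).filter
        (fun f => 0 < (-1 : K) ^ k * (D.w f * D.Xp ∅ f)))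
      (by
        intro f hf hfT
        rw [Finset.mem_filter, Finset.mem_filter, not_and] at hfT
        rw [neg_mul, neg_pos]
        exact lt_of_le_of_ne (not_lt.1 (hfT ⟨Finset.mem_univ f, hf⟩)) (hne f hf))
      (D.Bs γ ∅ k) (fun y hy a f hf => supp_Bs hy a f hf) (fun y hy => isotropic hD hγ h0 hy)
    have h4 := finrank_Bs_eq hD hγ h0 hV k le_rfl
    have hA' : (Fintype.card A : ℤ) * bz D ∅ k ≤ Fintype.card A * bz D ∅ k := le_rfl
    have hB' : (Fintype.card A : ℤ) * bz D ∅ k ≤ Fintype.card A * (D.Nn ∅ - bz D ∅ k) := by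
      rw [← h4, ← h2]
      exact_mod_cast hB
    have hpos : (0 : ℤ) < Fintype.card A := by exact_mod_cast Fintype.card_pos
    have h5 : bz D ∅ k ≤ D.Nn ∅ - bz D ∅ k := le_of_mul_le_mul_left hB' hpos
    have h6 : (-1 : ℤ) ^ k * ∑ f, (-1 : ℤ) ^ (D.R f).card = D.Nn ∅ - 2 * bz D ∅ k := by
      rw [← h1]
      simp
    rw [h6]
    linarith
  · have h1 : (univ : Finset ι) = ∅ := by
      rw [Finset.univ_eq_empty_iff]
      exact ⟨fun f => hS ⟨f, Finset.empty_subset _⟩⟩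
    rw [h1, Finset.sum_empty, mul_zero]

end Pool.Agent.Helper82.TI
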