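import Pool.Agent.Helper82.TI.Cliff
import Pool.Agent.Helper82.TI.Glue
import Pool.Agent.Helper82.TI.HR

/-!
# Project TI: the induction
-/

open Finset

namespace Pool.Agent.Helper82.TI

variable {K V ι n A : Type} [Field K] [LinearOrder K] [IsStrictOrderedRing K] [DecidableEq V]
  [Fintype V] [Fintype ι] [Fintype n] [Fintype A] [DecidableEq A]

/-- The pairing trick: the restriction to the star of a further vertex has norm zero. -/
theorem W_insert_zero {D : Dat K V ι n} (hD : D.Ok) {γ : n → Matrix A A K} (hγ : Cl γ) {i : ℕ}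
    {τ : Finset V} (h : 2 * i + τ.card + 1 ≤ D.d) {z : A → ι → K} (hz : z ∈ D.FS A (i + 1) τ)
    (hz' : D.Dop γ z ∈ D.FS A (i + 1) τ) {v : V} (hv : v ∉ τ) :
    D.W (insert v τ) z z = 0 := by
  obtain ⟨u, hu⟩ := hD.dual v
  have h1 := W_Gop_Dop D hγ τ u z
  rw [W_zero hD (i := i + 1) (j := i + 1) (by omega) (FS_Gop D γ u hz) hz'] at h1
  rw [Dat.W, h1]
  refine Finset.sum_congr rfl (fun f _ => ?_)
  have h2 : ∑ j, u j * D.xf f j = D.X v f := by
    simp only [Dat.xf, Finset.mul_sum]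
    rw [Finset.sum_comm]
    have h3 : ∀ v', ∑ j, u j * (D.X v' f * D.x v' j) = D.X v' f * if v' = v then 1 else 0 := by
      intro v'
      rw [← hu v', Finset.mul_sum]
      refine Finset.sum_congr rfl (fun j _ => ?_)
      ring
    rw [Finset.sum_congr rfl (fun v' _ => h3 v')]
    simp
  rw [h2, Dat.Xp, Finset.prod_insert hv, Dat.Xp]
  ring

theorem all_VV [Nonempty A] {D : Dat K V ι n} (hD : D.Ok) {γ : n → Matrix A A K} (hγ : Cl γ) :
    ∀ m : ℕ, ∀ τ : Finset V, D.d ≤ τ.card + m → ∀ i, 2 * i + τ.card < D.d → D.VV γ τ i := by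
  intro m
  induction m with
  | zero => intro τ h i hi; omega
  | succ m ih =>
    intro τ hτ i hi z hz hz'
    have IH : ∀ ρ : Finset V, τ ⊂ ρ → ∀ j, 2 * j + ρ.card < D.d → D.VV γ ρ j := by
      intro ρ hρ j hj
      have := card_lt_card hρ
      exact ih ρ (by omega) j hj
    apply glue hD hγ IH hi hz
    intro v hv
    have hc : (insert v τ).card = τ.card + 1 := card_insert_of_notMem hv
    have h1 : D.rs (insert v τ) z ∈ D.FS A (i + 1) (insert v τ) :=
      FS_rs D (subset_insert v τ) hz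
    have h2 : D.Dop γ (D.rs (insert v τ) z) ∈ D.FS A (i + 1) (insert v τ) := by
      rw [← rs_Dop]
      exact FS_rs D (subset_insert v τ) hz'
    by_cases h3 : 2 * i + (insert v τ).card < D.d
    · exact IH _ (ssubset_insert hv) i h3 _ h1 h2
    · refine hr hD hγ (l := i) (τ := insert v τ) (by omega)
        (fun j hj => IH _ (ssubset_insert hv) j (by omega)) h1 h2 ?_
      rw [W_rs hD, W_symm, W_rs hD]
      exact W_insert_zero hD hγ (by omega) hz hz' hv

theorem core {D : Dat K V ι n} (hD : D.Ok) {k : ℕ} (h : 2 * k = D.d) :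
    0 ≤ (-1 : ℤ) ^ k * ∑ f, (-1 : ℤ) ^ (D.R f).card := by
  obtain ⟨A, _, _, _, γ, hγ⟩ := exists_cl K n
  refine fin hD hγ h (fun j hj => ?_)
  exact all_VV hD hγ D.d ∅ (by simp) j (by simp; omega)

end Pool.Agent.Helper82.TI
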